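import Pool.Agent.Helper38.RC.Sieve
import Pool.Agent.Helper25.RC.Classes

/-!
Residue classes modulo pairwise coprime numbers, infinite sets.
-/

set_option autoImplicit false

open Finset Filter

namespace Pool.Agent.Helper38.RC

open Pool.Agent.Helper25.RC (below rep Null res)

theorem rf_le_rep {A : Set ℕ} {B : Finset ℕ} (hB : ∀ b ∈ B, b ∈ A) (n : ℕ) : rf B n ≤ rep A n := by
  classical
  unfold rf rep
  refine card_le_card ?_
  intro p hp
  rw [mem_filter, mem_product] at hp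
  rw [mem_filter, HasAntidiagonal.mem_antidiagonal]
  exact ⟨hp.2, hB _ hp.1.1, hB _ hp.1.2⟩

open Classical in
/-- the number of residue classes modulo `q` in which `A` is not null -/
noncomputable def nonnull (A : Set ℕ) (q : ℕ) : ℕ := #{r ∈ range q | ¬ Null (res A q r)}

theorem nonnull_le (A : Set ℕ) (q : ℕ) : nonnull A q ≤ q := by
  classical
  unfold nonnull
  exact (card_filter_le _ _).trans (by rw [card_range])

theorem aux_bound {A : Set ℕ} {K δ η : ℝ} (hη : 0 < η) (hηδ : η < δ)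
    (hfx : ∃ᶠ x : ℕ in atTop, δ * √x < #(below A x))
    (hK : ∀ᶠ x : ℕ in atTop, ∑ n ∈ range x, (rep A n : ℝ) ^ 2 ≤ K * x)
    {ι : Type} [Fintype ι] (q : ι → ℕ) (hq2 : ∀ i, 2 ≤ q i)
    (hc : Pairwise (Function.onFun Nat.Coprime q)) :
    η ^ 4 * ∏ i, (1 + ((q i : ℝ) / nonnull A (q i) - 1) ^ 2 / ((q i : ℝ) - 1)) ≤ 6 * K := by
  classical
  have hq0 : ∀ i, NeZero (q i) := fun i => ⟨by have := hq2 i; omega⟩
  set k : ℝ := (Fintype.card ι : ℝ) + 1 with hk
  have hkpos : 0 < k := by positivity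
  set e : ℝ := (δ - η) / k with he
  have hepos : 0 < e := div_pos (by linarith) hkpos
  have hE1 : ∀ᶠ x : ℕ in atTop, ∀ i ∈ (Finset.univ : Finset ι),
      (#{n ∈ below A x | Null (res A (q i) (n % q i))} : ℝ) ≤ e * √x := by
    rw [Filter.eventually_all_finset]
    intro i _
    exact Helper25.RC.null_part A (by have := hq2 i; omega) hepos
  have ht : Tendsto (fun x : ℕ => 2 * x) atTop atTop :=
    tendsto_atTop_mono (fun x => by show x ≤ 2 * x; omega) tendsto_id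
  obtain ⟨x, hxT, hx1, hx2, hx3, hx4⟩ := (hfx.and_eventually (hE1.and
    ((eventually_ge_atTop (∏ i, q i)).and ((ht.eventually hK).and (eventually_ge_atTop 1))))).exists
  have hxr : (1 : ℝ) ≤ x := by exact_mod_cast hx4
  have hsx : 0 < √(x : ℝ) := Real.sqrt_pos.2 (by linarith)
  set B : Finset ℕ := {n ∈ below A x | ∀ i, ¬ Null (res A (q i) (n % q i))} with hB
  have hBx : ∀ b ∈ B, b < x := fun b hb => (Helper25.RC.mem_below.1 (mem_filter.1 hb).1).1
  have hBA : ∀ b ∈ B, b ∈ A := fun b hb => (Helper25.RC.mem_below.1 (mem_filter.1 hb).1).2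
  have hBcard : η * √x ≤ (#B : ℝ) := by
    have h1 : below A x ⊆ B ∪ (Finset.univ : Finset ι).biUnion
        (fun i => {n ∈ below A x | Null (res A (q i) (n % q i))}) := by
      intro n hn
      rw [mem_union]
      by_cases h : ∀ i, ¬ Null (res A (q i) (n % q i))
      · exact Or.inl (mem_filter.2 ⟨hn, h⟩)
      · push Not at h
        obtain ⟨i, hi⟩ := h
        exact Or.inr (mem_biUnion.2 ⟨i, mem_univ _, mem_filter.2 ⟨hn, hi⟩⟩)
    have h2 : #(below A x) ≤ #B + ∑ i, #{n ∈ below A x | Null (res A (q i) (n % q i))} :=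
      (card_le_card h1).trans ((card_union_le _ _).trans
        (Nat.add_le_add_left card_biUnion_le _))
    have h3 : (#(below A x) : ℝ) ≤
        #B + ∑ i, (#{n ∈ below A x | Null (res A (q i) (n % q i))} : ℝ) := by
      exact_mod_cast h2
    have h4 : ∑ i, (#{n ∈ below A x | Null (res A (q i) (n % q i))} : ℝ) ≤
        Fintype.card ι * (e * √x) := by
      calc ∑ i, (#{n ∈ below A x | Null (res A (q i) (n % q i))} : ℝ) ≤ ∑ _i : ι, e * √x :=
            Finset.sum_le_sum (fun i _ => hx1 i (mem_univ _))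
        _ = Fintype.card ι * (e * √x) := by
            rw [Finset.sum_const, card_univ, nsmul_eq_mul]
    have h5 : (Fintype.card ι : ℝ) * (e * √x) ≤ (δ - η) * √x := by
      have : (Fintype.card ι : ℝ) * e ≤ δ - η := by
        have h6 : k * e = δ - η := by rw [he]; field_simp
        rw [hk] at h6
        nlinarith
      calc (Fintype.card ι : ℝ) * (e * √x) = (Fintype.card ι * e) * √x := by ring
        _ ≤ _ := mul_le_mul_of_nonneg_right this hsx.le
    nlinarith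
  have hBpos : 0 < #B := by
    have : (0 : ℝ) < #B := lt_of_lt_of_le (mul_pos hη hsx) hBcard
    exact_mod_cast this
  obtain ⟨b0, hb0⟩ := card_pos.1 hBpos
  have hν0 : ∀ i, 0 < nonnull A (q i) := by
    intro i
    unfold nonnull
    refine card_pos.2 ⟨b0 % q i, mem_filter.2 ⟨mem_range.2 (Nat.mod_lt _ (by
      have := hq2 i; omega)), (mem_filter.1 hb0).2 i⟩⟩
  have hν : ∀ i, (B.image (fun a : ℕ => ((a : ℕ) : ZMod (q i)))).card ≤ nonnull A (q i) := by
    intro i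
    have h1 : B.image (fun a : ℕ => ((a : ℕ) : ZMod (q i))) ⊆
        ({r ∈ range (q i) | ¬ Null (res A (q i) r)} : Finset ℕ).image
          (fun a : ℕ => ((a : ℕ) : ZMod (q i))) := by
      intro z hz
      obtain ⟨n, hn, rfl⟩ := mem_image.1 hz
      refine mem_image.2 ⟨n % q i, mem_filter.2 ⟨mem_range.2 (Nat.mod_lt _ (by
        have := hq2 i; omega)), (mem_filter.1 hn).2 i⟩, ?_⟩
      exact ZMod.natCast_mod n (q i)
    exact (card_le_card h1).trans card_image_le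
  have hmain := energy_sieve q hc hq2 B x hBx hx2 (fun i => nonnull A (q i)) hν0
    (fun i => nonnull_le A (q i)) hν
  have hsum : ∑ n ∈ range (2 * x), ((rf B n : ℕ) : ℝ) ^ 2 ≤ K * (2 * x) := by
    have h1 : ∑ n ∈ range (2 * x), ((rf B n : ℕ) : ℝ) ^ 2 ≤
        ∑ n ∈ range (2 * x), (rep A n : ℝ) ^ 2 := by
      refine Finset.sum_le_sum (fun n _ => ?_)
      have : (rf B n : ℝ) ≤ rep A n := by exact_mod_cast rf_le_rep hBA n
      gcongr
    refine h1.trans (hx3.trans (le_of_eq ?_))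
    push_cast
    ring
  set P : ℝ := ∏ i, (1 + ((q i : ℝ) / nonnull A (q i) - 1) ^ 2 / ((q i : ℝ) - 1)) with hP
  have hP0 : 0 ≤ P := by
    refine Finset.prod_nonneg (fun i _ => ?_)
    have : (2 : ℝ) ≤ q i := by exact_mod_cast hq2 i
    have : 0 ≤ ((q i : ℝ) / nonnull A (q i) - 1) ^ 2 / ((q i : ℝ) - 1) :=
      div_nonneg (sq_nonneg _) (by linarith)
    linarith
  have h1 : (η * √x) ^ 4 * P ≤ 3 * x * (K * (2 * x)) := by
    calc (η * √x) ^ 4 * P ≤ (#B : ℝ) ^ 4 * P := by gcongr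
      _ ≤ 3 * x * ∑ n ∈ range (2 * x), ((rf B n : ℕ) : ℝ) ^ 2 := hmain
      _ ≤ _ := by gcongr
  have h2 : (√(x : ℝ)) ^ 4 = (x : ℝ) ^ 2 := by
    have : (√(x : ℝ)) ^ 4 = ((√(x : ℝ)) ^ 2) ^ 2 := by ring
    rw [this, Real.sq_sqrt (by linarith)]
  rw [mul_pow, h2] at h1
  have h3 : (x : ℝ) ^ 2 * (η ^ 4 * P) ≤ (x : ℝ) ^ 2 * (6 * K) := by
    calc (x : ℝ) ^ 2 * (η ^ 4 * P) = η ^ 4 * (x : ℝ) ^ 2 * P := by ring
      _ ≤ 3 * x * (K * (2 * x)) := h1
      _ = _ := by ring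
  exact le_of_mul_le_mul_left h3 (by positivity)

/-- THE PRODUCT BOUND for pairwise coprime moduli. -/
theorem prod_bound {A : Set ℕ} {K δ : ℝ} (hδ : 0 < δ)
    (hfx : ∃ᶠ x : ℕ in atTop, δ * √x < #(below A x))
    (hK : ∀ᶠ x : ℕ in atTop, ∑ n ∈ range x, (rep A n : ℝ) ^ 2 ≤ K * x)
    {ι : Type} [Fintype ι] (q : ι → ℕ) (hq2 : ∀ i, 2 ≤ q i)
    (hc : Pairwise (Function.onFun Nat.Coprime q)) :
    ∏ i, (1 + ((q i : ℝ) / nonnull A (q i) - 1) ^ 2 / ((q i : ℝ) - 1)) ≤ 6 * K / δ ^ 4 := by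
  set P : ℝ := ∏ i, (1 + ((q i : ℝ) / nonnull A (q i) - 1) ^ 2 / ((q i : ℝ) - 1)) with hP
  rw [le_div_iff₀ (by positivity), mul_comm]
  by_contra hcon
  push Not at hcon
  have hcont : Continuous (fun η : ℝ => η ^ 4 * P) := by fun_prop
  have h1 : ∀ᶠ η in nhdsWithin δ (Set.Iio δ), 6 * K < η ^ 4 * P :=
    (hcont.continuousAt.eventually (lt_mem_nhds hcon)).filter_mono nhdsWithin_le_nhds
  have h2 : ∀ᶠ η in nhdsWithin δ (Set.Iio δ), 0 < η :=
    (lt_mem_nhds hδ).filter_mono nhdsWithin_le_nhds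
  have h3 : ∀ᶠ η in nhdsWithin δ (Set.Iio δ), η < δ := self_mem_nhdsWithin
  obtain ⟨η, h4, h5, h6⟩ := (h1.and (h2.and h3)).exists
  exact absurd (aux_bound h5 h6 hfx hK q hq2 hc) (not_le.2 h4)

theorem sum_le_prod {ι : Type} (s : Finset ι) (f : ι → ℝ) (hf : ∀ i, 0 ≤ f i) :
    1 + ∑ i ∈ s, f i ≤ ∏ i ∈ s, (1 + f i) := by
  classical
  induction s using Finset.induction_on with
  | empty => simp
  | insert a s ha ih =>
    rw [Finset.sum_insert ha, Finset.prod_insert ha]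
    have h1 : 0 ≤ ∑ i ∈ s, f i := Finset.sum_nonneg (fun i _ => hf i)
    nlinarith [hf a]

/-- A non-null set with bounded mean square has almost all residue classes to almost all
pairwise coprime moduli. -/
theorem summable_classes {A : Set ℕ} (hA : ¬ Null A) {K : ℝ}
    (hK : ∀ᶠ x : ℕ in atTop, ∑ n ∈ range x, (rep A n : ℝ) ^ 2 ≤ K * x)
    {ι : Type} (q : ι → ℕ) (hq2 : ∀ i, 2 ≤ q i)
    (hc : Pairwise (Function.onFun Nat.Coprime q)) :
    Summable (fun i => ((q i : ℝ) / nonnull A (q i) - 1) ^ 2 / (q i : ℝ)) := by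
  obtain ⟨δ, hδ, hfx⟩ := Helper25.RC.not_null_iff.1 hA
  refine summable_of_sum_le (c := 6 * K / δ ^ 4) (fun i => by positivity) (fun s => ?_)
  have hc' : Pairwise (Function.onFun Nat.Coprime (fun i : s => q i.1)) := by
    intro i j hij
    exact hc (fun h => hij (Subtype.ext h))
  have h1 := prod_bound hδ hfx hK (fun i : s => q i.1) (fun i => hq2 i.1) hc'
  rw [Finset.prod_coe_sort s (fun i => 1 + ((q i : ℝ) / nonnull A (q i) - 1) ^ 2 /
    ((q i : ℝ) - 1))] at h1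
  have hnn : ∀ i, 0 ≤ ((q i : ℝ) / nonnull A (q i) - 1) ^ 2 / ((q i : ℝ) - 1) := by
    intro i
    have : (2 : ℝ) ≤ q i := by exact_mod_cast hq2 i
    exact div_nonneg (sq_nonneg _) (by linarith)
  have h2 := sum_le_prod s (fun i => ((q i : ℝ) / nonnull A (q i) - 1) ^ 2 / ((q i : ℝ) - 1)) hnn
  have h3 : ∑ i ∈ s, ((q i : ℝ) / nonnull A (q i) - 1) ^ 2 / (q i : ℝ) ≤
      ∑ i ∈ s, ((q i : ℝ) / nonnull A (q i) - 1) ^ 2 / ((q i : ℝ) - 1) := by
    refine Finset.sum_le_sum (fun i _ => ?_)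
    have : (2 : ℝ) ≤ q i := by exact_mod_cast hq2 i
    exact div_le_div_of_nonneg_left (sq_nonneg _) (by linarith) (by linarith)
  linarith

end Pool.Agent.Helper38.RC
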