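import Pool.Agent.Helper25.RC.Energy

/-!
A large sieve inequality (with a weak constant) and its consequence for additive energy.
-/

set_option autoImplicit false

open Finset MeasureTheory Real

namespace Pool.Agent.Helper38.RC

/-- the trigonometric polynomial `∑_(n < N) c n e(n u)` -/
noncomputable def trig (c : ℕ → ℝ) (N : ℕ) (u : ℝ) : ℂ :=
  ∑ n ∈ range N, (c n : ℂ) * Complex.exp (((2 * π * (n : ℝ) * u : ℝ) : ℂ) * Complex.I)

/-- its derivative -/
noncomputable def trigD (c : ℕ → ℝ) (N : ℕ) (u : ℝ) : ℂ :=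
  ∑ n ∈ range N, (c n : ℂ) * (Complex.exp (((2 * π * (n : ℝ) * u : ℝ) : ℂ) * Complex.I) *
    (((2 * π * (n : ℝ) : ℝ) : ℂ) * Complex.I))

theorem hasDerivAt_trig (c : ℕ → ℝ) (N : ℕ) (u : ℝ) :
    HasDerivAt (trig c N) (trigD c N u) u := by
  unfold trig trigD
  refine HasDerivAt.fun_sum (fun n _ => ?_)
  refine HasDerivAt.const_mul _ ?_
  refine HasDerivAt.cexp ?_
  have h1 : HasDerivAt (fun u : ℝ => ((2 * π * (n : ℝ) * u : ℝ))) (2 * π * (n : ℝ)) u := by
    simpa using (hasDerivAt_id u).const_mul (2 * π * (n : ℝ))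
  exact (h1.ofReal_comp).mul_const Complex.I

theorem normSq_trig (c : ℕ → ℝ) (N : ℕ) (u : ℝ) :
    ‖trig c N u‖ ^ 2 = ∑ m ∈ range N, ∑ n ∈ range N,
      c m * c n * Real.cos (2 * π * ((m : ℝ) - n) * u) := by
  have h1 : trig c N u = ((∑ n ∈ range N, c n * Real.cos (2 * π * (n : ℝ) * u) : ℝ) : ℂ) +
      ((∑ n ∈ range N, c n * Real.sin (2 * π * (n : ℝ) * u) : ℝ) : ℂ) * Complex.I := by
    unfold trig
    push_cast
    rw [Finset.sum_mul, ← Finset.sum_add_distrib]
    refine Finset.sum_congr rfl (fun n _ => ?_)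
    rw [Complex.exp_mul_I]
    ring
  rw [h1, ← Complex.normSq_eq_norm_sq, Complex.normSq_add_mul_I, sq, sq, Finset.sum_mul_sum,
    Finset.sum_mul_sum, ← Finset.sum_add_distrib]
  refine Finset.sum_congr rfl (fun m _ => ?_)
  rw [← Finset.sum_add_distrib]
  refine Finset.sum_congr rfl (fun n _ => ?_)
  have : 2 * π * ((m : ℝ) - n) * u = 2 * π * (m : ℝ) * u - 2 * π * (n : ℝ) * u := by ring
  rw [this, Real.cos_sub]
  ring

theorem integral_cos_period (m n : ℕ) :
    ∫ u in (0 : ℝ)..2, Real.cos (2 * π * ((m : ℝ) - n) * u) = if m = n then 2 else 0 := by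
  split_ifs with h
  · subst h
    simp
  · have hk : (2 * π * ((m : ℝ) - n)) ≠ 0 := by
      have : ((m : ℝ) - n) ≠ 0 := sub_ne_zero.2 (by exact_mod_cast h)
      positivity
    rw [intervalIntegral.integral_comp_mul_left (fun x => Real.cos x) hk, integral_cos]
    have h1 : Real.sin (2 * π * ((m : ℝ) - n) * 2) = 0 := by
      have := Real.sin_int_mul_pi (4 * ((m : ℤ) - n))
      rw [← this]
      congr 1
      push_cast
      ring
    rw [h1]
    simp

theorem parseval (c : ℕ → ℝ) (N : ℕ) :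
    ∫ u in (0 : ℝ)..2, ‖trig c N u‖ ^ 2 = 2 * ∑ n ∈ range N, (c n) ^ 2 := by
  simp_rw [normSq_trig]
  rw [intervalIntegral.integral_finsetSum]
  · rw [Finset.mul_sum]
    refine Finset.sum_congr rfl (fun m hm => ?_)
    rw [intervalIntegral.integral_finsetSum]
    · simp_rw [intervalIntegral.integral_const_mul, integral_cos_period]
      rw [Finset.sum_eq_single m]
      · simp only [if_true]
        ring
      · intro n _ hn
        rw [if_neg (Ne.symm hn)]
        ring
      · intro h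
        exact absurd hm h
    · intro n _
      exact (Continuous.intervalIntegrable (by fun_prop) _ _)
  · intro m _
    exact (Continuous.intervalIntegrable (by fun_prop) _ _)

theorem continuous_trig (c : ℕ → ℝ) (N : ℕ) : Continuous (trig c N) :=
  continuous_iff_continuousAt.2 (fun u => (hasDerivAt_trig c N u).continuousAt)

theorem norm_trigD (c : ℕ → ℝ) (N : ℕ) (u : ℝ) :
    ‖trigD c N u‖ = ‖trig (fun n => c n * (2 * π * n)) N u‖ := by
  have : trigD c N u = trig (fun n => c n * (2 * π * n)) N u * Complex.I := by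
    unfold trigD trig
    rw [Finset.sum_mul]
    refine Finset.sum_congr rfl (fun n _ => ?_)
    push_cast
    ring
  rw [this, norm_mul, Complex.norm_I, mul_one]

theorem continuous_trigD (c : ℕ → ℝ) (N : ℕ) : Continuous (trigD c N) := by
  unfold trigD
  fun_prop

/-- Gallagher's pointwise bound -/
theorem gallagher (c : ℕ → ℝ) (N : ℕ) (hN : 0 < N) {δ : ℝ} (hδ : 0 < δ) (t : ℝ) :
    ‖trig c N t‖ ^ 2 ≤ ∫ u in t..(t + δ), ((δ⁻¹ + 2 * π * N) * ‖trig c N u‖ ^ 2 +
      (2 * π * N)⁻¹ * ‖trigD c N u‖ ^ 2) := by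
  have hLpos : (0 : ℝ) < 2 * π * N := by positivity
  set L : ℝ := 2 * π * N with hL
  have hle : t ≤ t + δ := by linarith
  set F' : ℝ → ℂ := fun u => 2 * trig c N u * trigD c N u with hF'
  have hFd : ∀ u, HasDerivAt (fun u => trig c N u ^ 2) (F' u) u := by
    intro u
    have := (hasDerivAt_trig c N u).fun_pow 2
    simpa [hF'] using this
  have cS := continuous_trig c N
  have cD := continuous_trigD c N
  have hF'c : Continuous F' := by
    rw [hF']
    exact (continuous_const.mul cS).mul cD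
  have hnc : Continuous (fun u => ‖F' u‖) := hF'c.norm
  have key : ∀ u ∈ Set.Icc t (t + δ), ‖trig c N t‖ ^ 2 ≤ ‖trig c N u‖ ^ 2 +
      ∫ v in t..(t + δ), ‖F' v‖ := by
    intro u hu
    have h1 : ∫ v in t..u, F' v = trig c N u ^ 2 - trig c N t ^ 2 :=
      intervalIntegral.integral_eq_sub_of_hasDerivAt (fun v _ => hFd v)
        (hF'c.intervalIntegrable _ _)
    have h2 : ‖trig c N t ^ 2‖ ≤ ‖trig c N u ^ 2‖ + ‖∫ v in t..u, F' v‖ := by
      have : trig c N t ^ 2 = trig c N u ^ 2 - ∫ v in t..u, F' v := by rw [h1]; ring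
      rw [this]
      exact norm_sub_le _ _
    have h3 : ‖∫ v in t..u, F' v‖ ≤ ∫ v in t..u, ‖F' v‖ :=
      intervalIntegral.norm_integral_le_integral_norm hu.1
    have h4 : ∫ v in t..u, ‖F' v‖ ≤ ∫ v in t..(t + δ), ‖F' v‖ := by
      apply intervalIntegral.integral_mono_interval le_rfl hu.1 hu.2
      · exact Filter.Eventually.of_forall (fun v => norm_nonneg _)
      · exact hnc.intervalIntegrable _ _
    rw [norm_pow, norm_pow] at h2
    linarith
  have i1 : IntervalIntegrable (fun u => ‖trig c N u‖ ^ 2) volume t (t + δ) :=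
    (cS.norm.pow 2).intervalIntegrable _ _
  have i2 : IntervalIntegrable (fun u => ‖trigD c N u‖ ^ 2) volume t (t + δ) :=
    (cD.norm.pow 2).intervalIntegrable _ _
  have k1 : ∫ _u in t..(t + δ), ‖trig c N t‖ ^ 2 ≤
      ∫ u in t..(t + δ), (‖trig c N u‖ ^ 2 + ∫ v in t..(t + δ), ‖F' v‖) :=
    intervalIntegral.integral_mono_on hle intervalIntegrable_const
      (i1.add intervalIntegrable_const) key
  rw [intervalIntegral.integral_add i1 intervalIntegrable_const,
    intervalIntegral.integral_const, intervalIntegral.integral_const] at k1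
  simp only [add_sub_cancel_left, smul_eq_mul] at k1
  have k2 : ∫ v in t..(t + δ), ‖F' v‖ ≤
      ∫ v in t..(t + δ), (L * ‖trig c N v‖ ^ 2 + L⁻¹ * ‖trigD c N v‖ ^ 2) := by
    refine intervalIntegral.integral_mono_on hle (hnc.intervalIntegrable _ _)
      ((i1.const_mul L).add (i2.const_mul L⁻¹)) (fun v _ => ?_)
    have e1 : ‖F' v‖ = 2 * ‖trig c N v‖ * ‖trigD c N v‖ := by
      simp [hF']
    rw [e1]
    have e2 : L * ‖trig c N v‖ ^ 2 + L⁻¹ * ‖trigD c N v‖ ^ 2 -
        2 * ‖trig c N v‖ * ‖trigD c N v‖ = L⁻¹ * (L * ‖trig c N v‖ - ‖trigD c N v‖) ^ 2 := by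
      field_simp
      ring
    have e3 : 0 ≤ L⁻¹ * (L * ‖trig c N v‖ - ‖trigD c N v‖) ^ 2 := by positivity
    linarith
  rw [intervalIntegral.integral_add (i1.const_mul L) (i2.const_mul L⁻¹),
    intervalIntegral.integral_const_mul, intervalIntegral.integral_const_mul] at k2
  rw [intervalIntegral.integral_add (i1.const_mul _) (i2.const_mul L⁻¹),
    intervalIntegral.integral_const_mul, intervalIntegral.integral_const_mul]
  have k3 : ‖trig c N t‖ ^ 2 ≤ δ⁻¹ * (∫ u in t..(t + δ), ‖trig c N u‖ ^ 2) +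
      ∫ v in t..(t + δ), ‖F' v‖ := by
    have : ‖trig c N t‖ ^ 2 = δ⁻¹ * (δ * ‖trig c N t‖ ^ 2) := by field_simp
    rw [this]
    have := mul_le_mul_of_nonneg_left k1 (inv_nonneg.2 hδ.le)
    refine this.trans (le_of_eq ?_)
    field_simp
  linarith

theorem sum_intervals {G : ℝ → ℝ} (hG : Continuous G) (h0 : ∀ u, 0 ≤ G u) {δ : ℝ}
    (hδ : 0 < δ) (hδ1 : δ ≤ 1) (T : Finset ℝ) (hT : ∀ t ∈ T, 0 ≤ t ∧ t ≤ 1)
    (hsep : ∀ s ∈ T, ∀ t ∈ T, s ≠ t → δ ≤ |s - t|) :
    ∑ t ∈ T, ∫ u in t..(t + δ), G u ≤ ∫ u in (0 : ℝ)..2, G u := by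
  have hint : IntegrableOn G (Set.Ioc 0 2) := (hG.intervalIntegrable 0 2).1
  have hsub : ∀ t ∈ T, Set.Ioc t (t + δ) ⊆ Set.Ioc (0 : ℝ) 2 := by
    intro t ht u hu
    have := hT t ht
    exact ⟨by linarith [hu.1], by linarith [hu.2]⟩
  have h1 : ∑ t ∈ T, ∫ u in t..(t + δ), G u = ∑ t ∈ T, ∫ u in Set.Ioc t (t + δ), G u :=
    Finset.sum_congr rfl (fun t _ => intervalIntegral.integral_of_le (by linarith))
  rw [h1, intervalIntegral.integral_of_le (by norm_num), ← integral_biUnion_finset]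
  · refine setIntegral_mono_set hint (Filter.Eventually.of_forall h0) ?_
    exact (Set.iUnion₂_subset hsub).eventuallyLE
  · intro t _
    exact measurableSet_Ioc
  · intro s hs t ht hst
    rw [Function.onFun, Set.disjoint_left]
    intro u hu hu'
    have := hsep s hs t ht hst
    rcases le_abs.1 this with h | h
    · linarith [hu.1, hu.2, hu'.1, hu'.2]
    · linarith [hu.1, hu.2, hu'.1, hu'.2]
  · intro t ht
    exact hint.mono_set (hsub t ht)

/-- the large sieve with a weak constant -/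
theorem large_sieve (c : ℕ → ℝ) (N : ℕ) (hN : 0 < N) {δ : ℝ} (hδ : 0 < δ) (hδ1 : δ ≤ 1)
    (T : Finset ℝ) (hT : ∀ t ∈ T, 0 ≤ t ∧ t ≤ 1)
    (hsep : ∀ s ∈ T, ∀ t ∈ T, s ≠ t → δ ≤ |s - t|) :
    ∑ t ∈ T, ‖trig c N t‖ ^ 2 ≤ (2 / δ + 8 * π * N) * ∑ n ∈ range N, (c n) ^ 2 := by
  have hLpos : (0 : ℝ) < 2 * π * N := by positivity
  have cS := continuous_trig c N
  have cD := continuous_trigD c N
  have i1 : IntervalIntegrable (fun u => ‖trig c N u‖ ^ 2) volume 0 2 :=
    (cS.norm.pow 2).intervalIntegrable _ _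
  have i2 : IntervalIntegrable (fun u => ‖trigD c N u‖ ^ 2) volume 0 2 :=
    (cD.norm.pow 2).intervalIntegrable _ _
  refine (Finset.sum_le_sum (fun t _ => gallagher c N hN hδ t)).trans ?_
  refine (sum_intervals (by fun_prop) (fun u => by positivity) hδ hδ1 T hT hsep).trans ?_
  rw [intervalIntegral.integral_add (i1.const_mul _) (i2.const_mul _),
    intervalIntegral.integral_const_mul, intervalIntegral.integral_const_mul, parseval]
  have h1 : ∫ u in (0 : ℝ)..2, ‖trigD c N u‖ ^ 2 =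
      2 * ∑ n ∈ range N, (c n * (2 * π * n)) ^ 2 := by
    rw [← parseval]
    exact intervalIntegral.integral_congr (fun u _ => by simp only [norm_trigD])
  have h2 : ∑ n ∈ range N, (c n * (2 * π * n)) ^ 2 ≤ (2 * π * N) ^ 2 * ∑ n ∈ range N, (c n) ^ 2 := by
    rw [Finset.mul_sum]
    refine Finset.sum_le_sum (fun n hn => ?_)
    have hn' : (n : ℝ) ≤ N := by exact_mod_cast (mem_range.1 hn).le
    have h3 : (2 * π * (n : ℝ)) ^ 2 ≤ (2 * π * N) ^ 2 := by gcongr
    calc (c n * (2 * π * n)) ^ 2 = (2 * π * (n : ℝ)) ^ 2 * (c n) ^ 2 := by ring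
      _ ≤ _ := mul_le_mul_of_nonneg_right h3 (sq_nonneg _)
  rw [h1]
  have h4 : (2 * π * (N : ℝ))⁻¹ * (2 * ∑ n ∈ range N, (c n * (2 * π * n)) ^ 2) ≤
      (2 * π * (N : ℝ))⁻¹ * (2 * ((2 * π * N) ^ 2 * ∑ n ∈ range N, (c n) ^ 2)) := by
    gcongr
  refine (add_le_add le_rfl h4).trans (le_of_eq ?_)
  have hN' : (N : ℝ) ≠ 0 := by positivity
  field_simp
  ring

end Pool.Agent.Helper38.RC
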