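import Pool.Agent.Helper38.RC.LS
import Pool.Agent.Helper25.RC.Classes

/-!
The large sieve for the square of the exponential sum of a set, Farey fractions and residue classes.
-/

set_option autoImplicit false

open Finset MeasureTheory Real

namespace Pool.Agent.Helper38.RC

open Pool.Agent.Helper25.RC (repF cong)

/-- the exponential sum over a finite set -/
noncomputable def expSum (S : Finset ℕ) (u : ℝ) : ℂ :=
  ∑ a ∈ S, Complex.exp (((2 * π * (a : ℝ) * u : ℝ) : ℂ) * Complex.I)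

theorem expSum_sq (S : Finset ℕ) {x : ℕ} (hS : S ⊆ range x) (u : ℝ) :
    expSum S u ^ 2 = trig (fun n => ((repF S n : ℕ) : ℝ)) (2 * x) u := by
  classical
  unfold expSum trig
  rw [sq, Finset.sum_mul_sum, ← Finset.sum_product']
  have hmaps : ∀ v ∈ S ×ˢ S, v.1 + v.2 ∈ range (2 * x) := by
    intro v hv
    rw [mem_product] at hv
    have h1 := mem_range.1 (hS hv.1)
    have h2 := mem_range.1 (hS hv.2)
    rw [mem_range]; omega
  rw [← Finset.sum_fiberwise_of_maps_to hmaps]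
  refine Finset.sum_congr rfl fun n _ => ?_
  unfold repF
  rw [Finset.sum_congr rfl
    (g := fun _ => Complex.exp (((2 * π * (n : ℝ) * u : ℝ) : ℂ) * Complex.I)),
    Finset.sum_const, nsmul_eq_mul]
  · push_cast
    ring
  · intro v hv
    rw [← Complex.exp_add, ← (mem_filter.1 hv).2]
    congr 1
    push_cast
    ring

/-- LARGE SIEVE FOR THE FOURTH POWER of an exponential sum over a set. -/
theorem energy_large_sieve (S : Finset ℕ) {x : ℕ} (hx : 0 < x) (hS : S ⊆ range x)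
    (T : Finset ℝ) (hT : ∀ t ∈ T, 0 ≤ t ∧ t ≤ 1)
    (hsep : ∀ s ∈ T, ∀ t ∈ T, s ≠ t → 1 / (x : ℝ) ≤ |s - t|) :
    ∑ t ∈ T, ‖expSum S t‖ ^ 4 ≤ 53 * x * ∑ n ∈ range (2 * x), ((repF S n : ℕ) : ℝ) ^ 2 := by
  have hx' : (1 : ℝ) ≤ x := by exact_mod_cast hx
  have h := large_sieve (fun n => ((repF S n : ℕ) : ℝ)) (2 * x) (by omega)
    (δ := 1 / (x : ℝ)) (by positivity) ((div_le_one (by linarith)).2 hx') T hT hsep
  have h1 : ∀ t ∈ T, ‖expSum S t‖ ^ 4 = ‖trig (fun n => ((repF S n : ℕ) : ℝ)) (2 * x) t‖ ^ 2 := by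
    intro t _
    rw [← expSum_sq S hS, norm_pow]
    ring
  rw [Finset.sum_congr rfl h1]
  refine h.trans (mul_le_mul_of_nonneg_right ?_ (Finset.sum_nonneg fun n _ => sq_nonneg _))
  have hpi : π ≤ 3.15 := Real.pi_lt_d2.le
  push_cast
  have e1 : 2 / (1 / (x : ℝ)) = 2 * x := by field_simp
  rw [e1]
  nlinarith

/-- the residues coprime to `q` -/
def units (q : ℕ) : Finset ℕ := {a ∈ range q | Nat.Coprime a q}

theorem farey_eq {q q' a a' : ℕ} (hq : 0 < q) (hq' : 0 < q') (ha : Nat.Coprime a q)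
    (ha' : Nat.Coprime a' q') (h : (a : ℝ) / q = (a' : ℝ) / q') : q = q' ∧ a = a' := by
  have h0 : (0 : ℝ) < q := by exact_mod_cast hq
  have h0' : (0 : ℝ) < q' := by exact_mod_cast hq'
  rw [div_eq_div_iff h0.ne' h0'.ne'] at h
  have h1 : a * q' = a' * q := by exact_mod_cast h
  have h2 : q ∣ q' := by
    have : q ∣ a * q' := h1 ▸ Dvd.intro_left _ rfl
    exact (Nat.Coprime.symm ha).dvd_of_dvd_mul_left this
  have h3 : q' ∣ q := by
    have : q' ∣ a' * q := h1 ▸ Dvd.intro_left _ rfl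
    exact (Nat.Coprime.symm ha').dvd_of_dvd_mul_left this
  have h4 := Nat.dvd_antisymm h2 h3
  subst h4
  exact ⟨rfl, Nat.eq_of_mul_eq_mul_right hq h1⟩

theorem farey_sep {q q' a a' x : ℕ} (hq : 0 < q) (hq' : 0 < q') (hqx : q * q' ≤ x)
    (hne : (a : ℝ) / q ≠ (a' : ℝ) / q') : 1 / (x : ℝ) ≤ |(a : ℝ) / q - (a' : ℝ) / q'| := by
  have h0 : (0 : ℝ) < q := by exact_mod_cast hq
  have h0' : (0 : ℝ) < q' := by exact_mod_cast hq'
  have e1 : (a : ℝ) / q - (a' : ℝ) / q' = ((a : ℝ) * q' - q * a') / (q * q') := by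
    field_simp
  have h1 : ((a : ℤ) * q' - q * a') ≠ 0 := by
    intro h
    apply hne
    rw [← sub_eq_zero, e1]
    have : ((a : ℝ) * q' - q * a') = 0 := by exact_mod_cast h
    rw [this, zero_div]
  have h2 : (1 : ℝ) ≤ |(a : ℝ) * q' - q * a'| := by
    exact_mod_cast Int.one_le_abs h1
  rw [e1, abs_div, abs_of_pos (by positivity : (0 : ℝ) < q * q')]
  have h3 : ((q : ℝ) * q') ≤ x := by exact_mod_cast hqx
  exact div_le_div₀ (by positivity) h2 (by positivity) h3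

/-- All Farey fractions with denominators at most `√x`. -/
theorem farey_sieve (S : Finset ℕ) {x Q : ℕ} (hx : 0 < x) (hQ : Q * Q ≤ x) (hS : S ⊆ range x) :
    ∑ q ∈ Icc 1 Q, ∑ a ∈ units q, ‖expSum S ((a : ℝ) / q)‖ ^ 4 ≤
      53 * x * ∑ n ∈ range (2 * x), ((repF S n : ℕ) : ℝ) ^ 2 := by
  classical
  rw [Finset.sum_sigma']
  set D : Finset ((_ : ℕ) × ℕ) := (Icc 1 Q).sigma (fun q => units q) with hD
  have hD' : ∀ p ∈ D, (1 ≤ p.1 ∧ p.1 ≤ Q) ∧ (p.2 < p.1 ∧ Nat.Coprime p.2 p.1) := by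
    intro p hp
    rw [hD, mem_sigma, mem_Icc, units, mem_filter, mem_range] at hp
    exact hp
  have hinj : Set.InjOn (fun p : (_ : ℕ) × ℕ => (p.2 : ℝ) / p.1) D := by
    rintro ⟨q, a⟩ hp ⟨q', a'⟩ hp' h
    obtain ⟨⟨h1, h2⟩, h3, h4⟩ := hD' _ (mem_coe.1 hp)
    obtain ⟨⟨h1', h2'⟩, h3', h4'⟩ := hD' _ (mem_coe.1 hp')
    obtain ⟨h5, h6⟩ := farey_eq (show 0 < q from h1) (show 0 < q' from h1') h4 h4' h
    simp only at h5 h6
    subst h5
    subst h6
    rfl
  rw [← Finset.sum_image (g := fun p : (_ : ℕ) × ℕ => (p.2 : ℝ) / p.1)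
    (f := fun t => ‖expSum S t‖ ^ 4) hinj]
  refine energy_large_sieve S hx hS _ ?_ ?_
  · intro t ht
    obtain ⟨p, hp, rfl⟩ := mem_image.1 ht
    obtain ⟨⟨h1, h2⟩, h3, h4⟩ := hD' _ hp
    have h5 : (p.2 : ℝ) ≤ p.1 := by exact_mod_cast h3.le
    exact ⟨by positivity, (div_le_one (by exact_mod_cast h1)).2 h5⟩
  · intro s hs t ht hne
    obtain ⟨p, hp, rfl⟩ := mem_image.1 hs
    obtain ⟨p', hp', rfl⟩ := mem_image.1 ht
    obtain ⟨⟨h1, h2⟩, h3, h4⟩ := hD' _ hp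
    obtain ⟨⟨h1', h2'⟩, h3', h4'⟩ := hD' _ hp'
    exact farey_sep h1 h1' ((Nat.mul_le_mul h2 h2').trans hQ) hne

/-- orthogonality for one pair -/
theorem sum_exp_mod {q : ℕ} (hq : 0 < q) (m n : ℕ) :
    ∑ a ∈ range q, Complex.exp (((2 * π * ((m : ℝ) - n) * ((a : ℝ) / q) : ℝ) : ℂ) * Complex.I) =
      if m ≡ n [MOD q] then (q : ℂ) else 0 := by
  have hq' : (q : ℂ) ≠ 0 := by exact_mod_cast hq.ne'
  set z : ℂ := Complex.exp (((2 * π * ((m : ℝ) - n) / q : ℝ) : ℂ) * Complex.I) with hz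
  have h1 : ∀ a ∈ range q,
      Complex.exp (((2 * π * ((m : ℝ) - n) * ((a : ℝ) / q) : ℝ) : ℂ) * Complex.I) = z ^ a := by
    intro a _
    rw [hz, ← Complex.exp_nat_mul]
    congr 1
    push_cast
    ring
  rw [Finset.sum_congr rfl h1]
  have hzq : z ^ q = 1 := by
    rw [hz, ← Complex.exp_nat_mul, Complex.exp_eq_one_iff]
    refine ⟨(m : ℤ) - n, ?_⟩
    push_cast
    field_simp
  have hz1 : z = 1 ↔ m ≡ n [MOD q] := by
    rw [hz, Complex.exp_eq_one_iff]
    constructor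
    · rintro ⟨k, hk⟩
      have h2 : ((m : ℂ) - n) = k * q := by
        have h3 : (2 * (π : ℂ) * Complex.I) ≠ 0 := Complex.two_pi_I_ne_zero
        push_cast at hk
        have h4 : (2 * (π : ℂ) * Complex.I) * ((m : ℂ) - n) =
            (2 * (π : ℂ) * Complex.I) * (k * q) := by
          field_simp at hk
          linear_combination (2 * (π : ℂ) * Complex.I) * hk
        exact mul_left_cancel₀ h3 h4
      have h5 : ((m : ℤ) - n) = k * q := by exact_mod_cast h2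
      refine (Nat.modEq_iff_dvd.2 ?_).symm
      exact ⟨k, by rw [h5]; ring⟩
    · intro h
      obtain ⟨k, hk⟩ := Nat.modEq_iff_dvd.1 h.symm
      refine ⟨k, ?_⟩
      have h5 : ((m : ℂ) - n) = q * k := by exact_mod_cast hk
      push_cast
      rw [mul_div_assoc, h5]
      field_simp
  split_ifs with h
  · rw [hz1.2 h]
    simp
  · have hne : z - 1 ≠ 0 := sub_ne_zero.2 (fun h' => h (hz1.1 h'))
    have h2 := geom_sum_mul z q
    rw [hzq, sub_self] at h2
    exact (mul_eq_zero.1 h2).resolve_right hne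

theorem sum_norm_sq_expSum (S : Finset ℕ) {q : ℕ} (hq : 0 < q) :
    ∑ a ∈ range q, ‖expSum S ((a : ℝ) / q)‖ ^ 2 = (q : ℝ) * cong S q := by
  classical
  have h1 : ∀ u : ℝ, ((‖expSum S u‖ ^ 2 : ℝ) : ℂ) = ∑ p ∈ S ×ˢ S,
      Complex.exp (((2 * π * ((p.1 : ℝ) - p.2) * u : ℝ) : ℂ) * Complex.I) := by
    intro u
    have h2 : ((‖expSum S u‖ ^ 2 : ℝ) : ℂ) = expSum S u * (starRingEnd ℂ) (expSum S u) := by
      rw [Complex.mul_conj, Complex.normSq_eq_norm_sq]
    rw [h2]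
    unfold expSum
    rw [map_sum, Finset.sum_mul_sum, ← Finset.sum_product']
    refine Finset.sum_congr rfl (fun p _ => ?_)
    rw [← Complex.exp_conj, ← Complex.exp_add]
    congr 1
    rw [map_mul, Complex.conj_I, Complex.conj_ofReal]
    push_cast
    ring
  have h3 : ((∑ a ∈ range q, ‖expSum S ((a : ℝ) / q)‖ ^ 2 : ℝ) : ℂ) =
      (((q : ℝ) * cong S q : ℝ) : ℂ) := by
    rw [Complex.ofReal_sum]
    simp_rw [h1]
    rw [Finset.sum_comm]
    simp_rw [sum_exp_mod hq]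
    rw [← Finset.sum_filter, Finset.sum_const, nsmul_eq_mul]
    unfold cong
    push_cast
    ring
  exact_mod_cast h3

theorem units_prime {p : ℕ} (hp : p.Prime) : units p = (range p).erase 0 := by
  ext a
  rw [units, mem_filter, mem_range, mem_erase, mem_range]
  constructor
  · rintro ⟨h1, h2⟩
    refine ⟨?_, h1⟩
    rintro rfl
    rw [Nat.coprime_zero_left] at h2
    exact hp.one_lt.ne' h2
  · rintro ⟨h1, h2⟩
    exact ⟨h2, (Nat.coprime_comm.1 ((Nat.Prime.coprime_iff_not_dvd hp).2 (fun h =>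
      absurd (Nat.le_of_dvd (Nat.pos_of_ne_zero h1) h) (not_le.2 h2))))⟩

theorem sum_units_prime (S : Finset ℕ) {p : ℕ} (hp : p.Prime) :
    ∑ a ∈ units p, ‖expSum S ((a : ℝ) / p)‖ ^ 2 = (p : ℝ) * cong S p - (#S : ℝ) ^ 2 := by
  have h := sum_norm_sq_expSum S hp.pos
  rw [← Finset.add_sum_erase _ _ (mem_range.2 hp.pos)] at h
  rw [units_prime hp]
  have h0 : ‖expSum S (((0 : ℕ) : ℝ) / p)‖ = #S := by
    unfold expSum
    simp
  rw [h0] at h
  linarith

/-- the modulus-`q` part of the spectrum, `q` arbitrary -/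
theorem prim_sieve (S : Finset ℕ) {x Q : ℕ} (hx : 0 < x) (hQ : Q * Q ≤ x) (hS : S ⊆ range x) :
    ∑ q ∈ Icc 1 Q, (∑ a ∈ units q, ‖expSum S ((a : ℝ) / q)‖ ^ 2) ^ 2 / (#(units q) : ℝ) ≤
      53 * x * ∑ n ∈ range (2 * x), ((repF S n : ℕ) : ℝ) ^ 2 := by
  refine (Finset.sum_le_sum (fun q _ => ?_)).trans (farey_sieve S hx hQ hS)
  rcases (units q).eq_empty_or_nonempty with h | h
  · rw [h]
    simp
  · have hpos : (0 : ℝ) < #(units q) := by exact_mod_cast card_pos.2 h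
    rw [div_le_iff₀ hpos]
    have := sq_sum_le_card_mul_sum_sq (s := units q)
      (f := fun a => ‖expSum S ((a : ℝ) / q)‖ ^ 2)
    refine this.trans (le_of_eq ?_)
    rw [mul_comm]
    congr 1
    refine Finset.sum_congr rfl (fun a _ => by ring)

/-- THE PRIME FORM: distribution in residue classes modulo the primes up to `√x`. -/
theorem prime_sieve (S : Finset ℕ) {x : ℕ} (hx : 0 < x) (hS : S ⊆ range x) (P : Finset ℕ)
    (hP : ∀ p ∈ P, p.Prime ∧ p * p ≤ x) :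
    ∑ p ∈ P, ((p : ℝ) * cong S p - (#S : ℝ) ^ 2) ^ 2 / ((p : ℝ) - 1) ≤
      53 * x * ∑ n ∈ range (2 * x), ((repF S n : ℕ) : ℝ) ^ 2 := by
  classical
  have h := prim_sieve S hx (Nat.sqrt_le x) hS
  have hsub : P ⊆ Icc 1 (Nat.sqrt x) := by
    intro p hp
    obtain ⟨h1, h2⟩ := hP p hp
    exact mem_Icc.2 ⟨h1.pos, Nat.le_sqrt.2 h2⟩
  refine le_trans ?_ h
  refine le_trans (le_of_eq ?_) (Finset.sum_le_sum_of_subset_of_nonneg hsub
    (fun q _ _ => by positivity))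
  refine Finset.sum_congr rfl (fun p hp => ?_)
  obtain ⟨h1, h2⟩ := hP p hp
  rw [sum_units_prime S h1, units_prime h1, card_erase_of_mem (mem_range.2 h1.pos), card_range,
    Nat.cast_sub h1.pos]
  simp

end Pool.Agent.Helper38.RC
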