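import Pool.Agent.Helper38.RC.LS2

/-!
Montgomery's lemma for a set with few residue classes modulo primes, and the sieve inequality for
the fourth power.
-/

set_option autoImplicit false

open Finset Real

namespace Pool.Agent.Helper38.RC

open Pool.Agent.Helper25.RC (repF cong)

theorem expSum_add_int (S : Finset ℕ) (u : ℝ) (k : ℤ) : expSum S (u + k) = expSum S u := by
  unfold expSum
  refine Finset.sum_congr rfl (fun a _ => ?_)
  have : ((2 * π * (a : ℝ) * (u + k) : ℝ) : ℂ) * Complex.I =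
      ((2 * π * (a : ℝ) * u : ℝ) : ℂ) * Complex.I + ((a * k : ℤ) : ℂ) * (2 * π * Complex.I) := by
    push_cast
    ring
  rw [this, Complex.exp_add, Complex.exp_int_mul_two_pi_mul_I, mul_one]

/-- Montgomery's lemma for one prime. -/
theorem mont_prime (S : Finset ℕ) {p : ℕ} (hp : p.Prime) {ν : ℕ} (hν0 : 0 < ν)
    (hν : #(S.image (fun n => n % p)) ≤ ν) (β : ℝ) :
    ((p : ℝ) / ν - 1) * ‖expSum S β‖ ^ 2 ≤ ∑ a ∈ units p, ‖expSum S ((a : ℝ) / p + β)‖ ^ 2 := by
  classical
  have hp0 := hp.pos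
  have hpR : (0 : ℝ) < p := by exact_mod_cast hp0
  have hνR : (0 : ℝ) < ν := by exact_mod_cast hν0
  set H : Finset ℕ := S.image (fun n => n % p) with hH
  have hHlt : ∀ h ∈ H, h < p := by
    intro h hh
    obtain ⟨n, _, rfl⟩ := mem_image.1 hh
    exact Nat.mod_lt _ hp0
  rcases S.eq_empty_or_nonempty with hS | hS
  · have : expSum S β = 0 := by rw [hS]; simp [expSum]
    rw [this]
    simp only [norm_zero, ne_eq, OfNat.ofNat_ne_zero, not_false_eq_true, zero_pow, mul_zero]
    exact Finset.sum_nonneg (fun a _ => by positivity)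
  have hh0 : 0 < #H := card_pos.2 (hS.image _)
  have hhR : (0 : ℝ) < #H := by exact_mod_cast hh0
  have hhν : (#H : ℝ) ≤ ν := by exact_mod_cast hν
  -- the dual weight
  have hcongH : cong H p = #H := by
    unfold cong
    rw [← Finset.card_image_of_injective H (f := fun n : ℕ => (n, n))
      (fun a b h => (Prod.mk.inj h).1)]
    congr 1
    ext ⟨a, b⟩
    simp only [mem_filter, mem_product, mem_image, Prod.mk.injEq]
    constructor
    · rintro ⟨⟨h1, h2⟩, h3⟩
      have h4 : a % p = b % p := h3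
      rw [Nat.mod_eq_of_lt (hHlt a h1), Nat.mod_eq_of_lt (hHlt b h2)] at h4
      exact ⟨a, h1, rfl, h4⟩
    · rintro ⟨c, h1, rfl, rfl⟩
      exact ⟨⟨h1, h1⟩, Nat.ModEq.refl _⟩
  have hw2 := sum_norm_sq_expSum H hp0
  rw [hcongH, ← Finset.add_sum_erase _ _ (mem_range.2 hp0)] at hw2
  have h0 : ‖expSum H (((0 : ℕ) : ℝ) / p)‖ = #H := by
    unfold expSum
    simp
  rw [h0] at hw2
  have hsum : ∑ a ∈ range p, expSum S ((a : ℝ) / p + β) *
      (starRingEnd ℂ) (expSum H ((a : ℝ) / p)) = (p : ℂ) * expSum S β := by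
    have e1 : ∀ a ∈ range p, expSum S ((a : ℝ) / p + β) *
        (starRingEnd ℂ) (expSum H ((a : ℝ) / p)) = ∑ n ∈ S, ∑ h ∈ H,
        Complex.exp (((2 * π * (n : ℝ) * β : ℝ) : ℂ) * Complex.I) *
        Complex.exp (((2 * π * ((n : ℝ) - h) * ((a : ℝ) / p) : ℝ) : ℂ) * Complex.I) := by
      intro a _
      unfold expSum
      rw [map_sum, Finset.sum_mul_sum]
      refine Finset.sum_congr rfl (fun n _ => Finset.sum_congr rfl (fun h _ => ?_))
      rw [← Complex.exp_conj, ← Complex.exp_add, ← Complex.exp_add]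
      congr 1
      rw [map_mul, Complex.conj_I, Complex.conj_ofReal]
      push_cast
      ring
    rw [Finset.sum_congr rfl e1, Finset.sum_comm]
    unfold expSum
    rw [Finset.mul_sum]
    refine Finset.sum_congr rfl (fun n hn => ?_)
    rw [Finset.sum_comm]
    simp_rw [← Finset.mul_sum, sum_exp_mod hp0]
    rw [Finset.sum_eq_single (n % p)]
    · rw [if_pos (Nat.mod_modEq n p).symm]
      ring
    · intro h hh hne
      rw [if_neg]
      intro h3
      apply hne
      have h4 : n % p = h % p := h3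
      rw [h4, Nat.mod_eq_of_lt (hHlt h hh)]
    · intro hno
      exact absurd (mem_image_of_mem _ hn) hno
  rw [← Finset.add_sum_erase _ _ (mem_range.2 hp0)] at hsum
  have h0' : expSum H (((0 : ℕ) : ℝ) / p) = (#H : ℂ) := by
    unfold expSum
    simp
  rw [h0'] at hsum
  have hz : ((0 : ℕ) : ℝ) / p + β = β := by simp
  rw [hz, Complex.conj_natCast] at hsum
  have hsum' : ∑ a ∈ (range p).erase 0, expSum S ((a : ℝ) / p + β) *
      (starRingEnd ℂ) (expSum H ((a : ℝ) / p)) = ((p : ℂ) - #H) * expSum S β := by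
    linear_combination hsum
  have hCS : (((p : ℝ) - #H) * ‖expSum S β‖) ^ 2 ≤
      (∑ a ∈ (range p).erase 0, ‖expSum S ((a : ℝ) / p + β)‖ ^ 2) *
        (∑ a ∈ (range p).erase 0, ‖expSum H ((a : ℝ) / p)‖ ^ 2) := by
    have h1 : |((p : ℝ) - #H) * ‖expSum S β‖| ≤ ∑ a ∈ (range p).erase 0,
        ‖expSum S ((a : ℝ) / p + β)‖ * ‖expSum H ((a : ℝ) / p)‖ := by
      have h2 : |((p : ℝ) - #H) * ‖expSum S β‖| = ‖((p : ℂ) - #H) * expSum S β‖ := by
        rw [norm_mul, abs_mul, abs_norm]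
        congr 1
        have : ((p : ℂ) - #H) = (((p : ℝ) - #H : ℝ) : ℂ) := by push_cast; ring
        rw [this, Complex.norm_real, Real.norm_eq_abs]
      rw [h2, ← hsum']
      refine (norm_sum_le _ _).trans (Finset.sum_le_sum (fun a _ => ?_))
      rw [norm_mul, RCLike.norm_conj]
    rw [← sq_abs]
    refine (pow_le_pow_left₀ (abs_nonneg _) h1 2).trans ?_
    exact Finset.sum_mul_sq_le_sq_mul_sq _ _ _
  have hW : ∑ a ∈ (range p).erase 0, ‖expSum H ((a : ℝ) / p)‖ ^ 2 = #H * ((p : ℝ) - #H) := by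
    linarith
  rw [hW] at hCS
  rw [units_prime hp]
  set X : ℝ := ∑ a ∈ (range p).erase 0, ‖expSum S ((a : ℝ) / p + β)‖ ^ 2 with hX
  have hX0 : 0 ≤ X := Finset.sum_nonneg (fun a _ => by positivity)
  have hpH : (#H : ℝ) ≤ p := by
    have : #H ≤ #(range p) := card_le_card (fun h hh => mem_range.2 (hHlt h hh))
    rw [card_range] at this
    exact_mod_cast this
  have hmono : (p : ℝ) / ν - 1 ≤ (p : ℝ) / #H - 1 := by
    have := div_le_div_of_nonneg_left hpR.le hhR hhν
    linarith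
  have hmain : ((p : ℝ) / #H - 1) * ‖expSum S β‖ ^ 2 ≤ X := by
    rcases eq_or_lt_of_le hpH with h | h
    · rw [h, div_self hpR.ne', sub_self, zero_mul]
      exact hX0
    · have h1 : 0 < (p : ℝ) - #H := by linarith
      have h2 : ((p : ℝ) - #H) * (((p : ℝ) - #H) * ‖expSum S β‖ ^ 2) ≤
          ((p : ℝ) - #H) * (#H * X) := by
        calc ((p : ℝ) - #H) * (((p : ℝ) - #H) * ‖expSum S β‖ ^ 2) =
            (((p : ℝ) - #H) * ‖expSum S β‖) ^ 2 := by ring
          _ ≤ X * (#H * ((p : ℝ) - #H)) := hCS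
          _ = _ := by ring
      have h3 := le_of_mul_le_mul_left h2 h1
      have h4 : (p : ℝ) / #H - 1 = ((p : ℝ) - #H) / #H := by field_simp
      rw [h4, div_mul_eq_mul_div, div_le_iff₀ hhR]
      linarith
  exact (mul_le_mul_of_nonneg_right hmono (by positivity)).trans hmain

end Pool.Agent.Helper38.RC
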