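import Pool.Agent.Helper38.RC.Scale
import Pool.Agent.Helper5.RC.En
import Pool.Agent.Helper25.RC.Classes

/-!
The local distribution of a set with bounded mean square.
-/

set_option autoImplicit false

open Finset Filter

namespace Pool.Agent.Helper38.RC

open Pool.Agent.Helper5.RC (sol)
open Pool.Agent.Helper25.RC (below rep repF Null res)

/-- number of elements in a residue class -/
def cl (S : Finset ℕ) (q r : ℕ) : ℕ := (S.filter (fun n => n % q = r)).card

theorem sol_fiber (S : Finset ℕ) {q : ℕ} (hq : 0 < q) : (sol q S).card =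
    ∑ p ∈ ((range q ×ˢ range q) ×ˢ (range q ×ˢ range q)).filter
      (fun p => (p.1.1 + p.1.2) % q = (p.2.1 + p.2.2) % q),
      cl S q p.1.1 * cl S q p.1.2 * (cl S q p.2.1 * cl S q p.2.2) := by
  classical
  rw [Finset.card_eq_sum_card_fiberwise
    (f := fun p : (ℕ × ℕ) × (ℕ × ℕ) => ((p.1.1 % q, p.1.2 % q), (p.2.1 % q, p.2.2 % q)))
    (t := ((range q ×ˢ range q) ×ˢ (range q ×ˢ range q)).filter
      (fun p => (p.1.1 + p.1.2) % q = (p.2.1 + p.2.2) % q))]
  · refine Finset.sum_congr rfl (fun p hp => ?_)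
    obtain ⟨_, h5⟩ := mem_filter.1 hp
    unfold cl
    rw [← card_product, ← card_product, ← card_product]
    congr 1
    ext ⟨⟨a, b⟩, c, d⟩
    obtain ⟨⟨x, y⟩, z, t⟩ := p
    simp only [Pool.Agent.Helper5.RC.sol, mem_filter, mem_product, Prod.mk.injEq]
    constructor
    · rintro ⟨⟨⟨⟨h1, h2⟩, h3, h4⟩, _⟩, ⟨h6, h7⟩, h8, h9⟩
      exact ⟨⟨⟨h1, h6⟩, h2, h7⟩, ⟨h3, h8⟩, h4, h9⟩
    · rintro ⟨⟨⟨h1, h6⟩, h2, h7⟩, ⟨h3, h8⟩, h4, h9⟩
      refine ⟨⟨⟨⟨h1, h2⟩, h3, h4⟩, ?_⟩, ⟨h6, h7⟩, h8, h9⟩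
      rw [Nat.add_mod, h6, h7, Nat.add_mod c d, h8, h9]
      exact h5
  · intro p hp
    have := (mem_filter.1 (mem_coe.1 hp)).2
    rw [mem_coe, mem_filter, mem_product, mem_product, mem_product, mem_range, mem_range,
      mem_range, mem_range]
    refine ⟨⟨⟨Nat.mod_lt _ hq, Nat.mod_lt _ hq⟩, Nat.mod_lt _ hq, Nat.mod_lt _ hq⟩, ?_⟩
    rw [← Nat.add_mod, ← Nat.add_mod]
    exact this

/-- number of integers below `y` in a residue class -/
theorem card_class_range (q y t : ℕ) :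
    ((range y).filter (fun n => n % q = t)).card ≤ y / q + 1 := by
  have h : ((range y).filter (fun n => n % q = t)).card ≤ (range (y / q + 1)).card := by
    refine card_le_card_of_injOn (fun n => n / q) ?_ ?_
    · intro n hn
      have := mem_range.1 (mem_filter.1 (mem_coe.1 hn)).1
      rw [mem_coe, mem_range]
      exact Nat.lt_succ_of_le (Nat.div_le_div_right this.le)
    · intro a ha b hb hab
      have h1 := (mem_filter.1 (mem_coe.1 ha)).2
      have h2 := (mem_filter.1 (mem_coe.1 hb)).2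
      have h3 : a / q = b / q := hab
      rw [← Nat.div_add_mod a q, ← Nat.div_add_mod b q, h1, h2, h3]
  rwa [card_range] at h

theorem sol_sq (S : Finset ℕ) {q : ℕ} (hq : 0 < q) : (sol q S).card =
    ∑ t ∈ range q, (((S ×ˢ S).filter (fun p => (p.1 + p.2) % q = t)).card) ^ 2 := by
  classical
  rw [Finset.card_eq_sum_card_fiberwise
    (f := fun p : (ℕ × ℕ) × (ℕ × ℕ) => (p.1.1 + p.1.2) % q) (t := range q)]
  · refine Finset.sum_congr rfl (fun t _ => ?_)
    rw [sq, ← card_product]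
    congr 1
    ext ⟨a, b⟩
    simp only [Pool.Agent.Helper5.RC.sol, mem_filter, mem_product]
    constructor
    · rintro ⟨⟨⟨h1, h2⟩, h3⟩, h4⟩
      exact ⟨⟨h1, h4⟩, h2, by rw [← h3, h4]⟩
    · rintro ⟨⟨h1, h4⟩, h2, h3⟩
      exact ⟨⟨⟨h1, h2⟩, by rw [h4, h3]⟩, h4⟩
  · intro p _
    exact mem_coe.2 (mem_range.2 (Nat.mod_lt _ hq))

theorem sol_le (S : Finset ℕ) {q x : ℕ} (hS : S ⊆ range x) (hq : 0 < q) (hqx : q ≤ x) :
    (q : ℝ) * (sol q S).card ≤ 3 * x * ∑ n ∈ range (2 * x), (repF S n : ℝ) ^ 2 := by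
  classical
  have hqR : (0 : ℝ) < q := by exact_mod_cast hq
  have h1 : ∀ t, ((((S ×ˢ S).filter (fun p => (p.1 + p.2) % q = t)).card : ℕ) : ℝ) =
      ∑ n ∈ (range (2 * x)).filter (fun n => n % q = t), (repF S n : ℝ) := by
    intro t
    have h2 := Helper25.RC.sum_add S hS (fun n => if n % q = t then (1 : ℝ) else 0)
    rw [Finset.card_filter]
    push_cast
    rw [h2, Finset.sum_filter]
    refine Finset.sum_congr rfl (fun n _ => ?_)
    split_ifs <;> simp
  have h3 : ((sol q S).card : ℝ) ≤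
      ((2 * x / q : ℕ) + 1 : ℝ) * ∑ n ∈ range (2 * x), (repF S n : ℝ) ^ 2 := by
    rw [sol_sq S hq]
    push_cast
    have h4 : ∀ t ∈ range q, ((((S ×ˢ S).filter (fun p => (p.1 + p.2) % q = t)).card : ℕ) : ℝ) ^ 2 ≤
        ((2 * x / q : ℕ) + 1 : ℝ) *
          ∑ n ∈ (range (2 * x)).filter (fun n => n % q = t), (repF S n : ℝ) ^ 2 := by
      intro t _
      rw [h1 t]
      refine (sq_sum_le_card_mul_sum_sq).trans ?_
      refine mul_le_mul_of_nonneg_right ?_ (Finset.sum_nonneg (fun n _ => sq_nonneg _))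
      exact_mod_cast card_class_range q (2 * x) t
    refine (Finset.sum_le_sum h4).trans ?_
    rw [← Finset.mul_sum]
    refine mul_le_mul_of_nonneg_left (le_of_eq ?_) (by positivity)
    exact Finset.sum_fiberwise_of_maps_to (fun n _ => mem_range.2 (Nat.mod_lt _ hq)) _
  have h5 : (q : ℝ) * ((2 * x / q : ℕ) + 1) ≤ 3 * x := by
    have h6 : q * (2 * x / q) ≤ 2 * x := Nat.mul_div_le _ _
    have h7 : (q : ℝ) * (2 * x / q : ℕ) ≤ 2 * x := by exact_mod_cast h6
    have h8 : (q : ℝ) ≤ x := by exact_mod_cast hqx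
    linarith
  have hE0 : 0 ≤ ∑ n ∈ range (2 * x), (repF S n : ℝ) ^ 2 := Finset.sum_nonneg (fun n _ => sq_nonneg _)
  calc (q : ℝ) * (sol q S).card ≤ q * (((2 * x / q : ℕ) + 1 : ℝ) *
      ∑ n ∈ range (2 * x), (repF S n : ℝ) ^ 2) := by gcongr
    _ = (q * ((2 * x / q : ℕ) + 1 : ℝ)) * ∑ n ∈ range (2 * x), (repF S n : ℝ) ^ 2 := by ring
    _ ≤ _ := mul_le_mul_of_nonneg_right h5 hE0

/-- The local distribution along a filter. -/
theorem nec_filter (F : Filter ℕ) [F.NeBot] (hF : F ≤ atTop) (μ : ℕ → ℕ → ℝ) {A : Set ℕ} {K δ : ℝ} (hδ : 0 < δ)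
    (hfx : ∀ᶠ x : ℕ in F, δ * √x < #(below A x))
    (hK : ∀ᶠ x : ℕ in atTop, ∑ n ∈ range x, (rep A n : ℝ) ^ 2 ≤ K * x)
    {q : ℕ} (hq : 0 < q)
    (hlim : ∀ r < q, Tendsto (fun x : ℕ => (#((below A x).filter (fun n => n % q = r)) : ℝ) /
      #(below A x)) F (nhds (μ q r))) :
    (q : ℝ) * muE μ q ≤ 6 * K / δ ^ 4 := by
  classical
  set f : ℕ → ℝ := fun x => (q : ℝ) * ∑ p ∈ ((range q ×ˢ range q) ×ˢ (range q ×ˢ range q)).filter
      (fun p => (p.1.1 + p.1.2) % q = (p.2.1 + p.2.2) % q),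
      ((cl (below A x) q p.1.1 : ℝ) / #(below A x)) * ((cl (below A x) q p.1.2 : ℝ) / #(below A x)) *
      (((cl (below A x) q p.2.1 : ℝ) / #(below A x)) *
        ((cl (below A x) q p.2.2 : ℝ) / #(below A x))) with hf
  have hlim' : ∀ r < q, Tendsto (fun x : ℕ => (cl (below A x) q r : ℝ) / #(below A x)) F
      (nhds (μ q r)) := hlim
  have hft : Tendsto f F (nhds ((q : ℝ) * muE μ q)) := by
    refine Tendsto.const_mul _ ?_
    unfold muE
    refine tendsto_finsetSum _ (fun p hp => ?_)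
    obtain ⟨h1, _⟩ := mem_filter.1 hp
    rw [mem_product, mem_product, mem_product, mem_range, mem_range, mem_range, mem_range] at h1
    exact ((hlim' _ h1.1.1).mul (hlim' _ h1.1.2)).mul ((hlim' _ h1.2.1).mul (hlim' _ h1.2.2))
  have ht : Tendsto (fun x : ℕ => 2 * x) atTop atTop :=
    tendsto_atTop_mono (fun x => by show x ≤ 2 * x; omega) tendsto_id
  have hfreq : ∀ᶠ x : ℕ in F, f x ≤ 6 * K / δ ^ 4 := by
    filter_upwards [hfx, hF (ht.eventually hK), hF (eventually_ge_atTop q),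
      hF (eventually_ge_atTop 1)] with x h1 h2 h3 h4
    have hxR : (1 : ℝ) ≤ x := by exact_mod_cast h4
    set S := below A x with hS
    have hSx : S ⊆ range x := Helper25.RC.below_subset_range A x
    have hT : 0 < (#S : ℝ) := lt_trans (by positivity) h1
    have hsol := sol_le S hSx hq h3
    rw [sol_fiber S hq] at hsol
    have h5 : f x = (q : ℝ) * ((∑ p ∈ ((range q ×ˢ range q) ×ˢ (range q ×ˢ range q)).filter
        (fun p => (p.1.1 + p.1.2) % q = (p.2.1 + p.2.2) % q),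
        cl S q p.1.1 * cl S q p.1.2 * (cl S q p.2.1 * cl S q p.2.2) : ℕ) : ℝ) / (#S : ℝ) ^ 4 := by
      simp only [hf, ← hS]
      push_cast
      rw [mul_div_assoc, Finset.sum_div]
      congr 1
      refine Finset.sum_congr rfl (fun p _ => ?_)
      field_simp
    rw [h5, div_le_div_iff₀ (by positivity) (by positivity)]
    have h6 : ∑ n ∈ range (2 * x), (repF S n : ℝ) ^ 2 ≤ K * (2 * x) := by
      have h7 : ∑ n ∈ range (2 * x), (repF S n : ℝ) ^ 2 ≤ ∑ n ∈ range (2 * x), (rep A n : ℝ) ^ 2 := by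
        refine Finset.sum_le_sum (fun n _ => ?_)
        have : (repF S n : ℝ) ≤ rep A n := by exact_mod_cast Helper25.RC.repF_below_le A x n
        gcongr
      refine h7.trans (h2.trans (le_of_eq ?_))
      push_cast
      ring
    have h8 : δ ^ 4 * (x : ℝ) ^ 2 ≤ (#S : ℝ) ^ 4 := by
      calc δ ^ 4 * (x : ℝ) ^ 2 = (δ * √x) ^ 4 := by
            rw [mul_pow]
            congr 1
            calc (x : ℝ) ^ 2 = ((√(x : ℝ)) ^ 2) ^ 2 := by rw [Real.sq_sqrt (by linarith)]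
              _ = _ := by ring
        _ ≤ _ := by gcongr
    have h9 : 0 ≤ K * (2 * x) := le_trans (Finset.sum_nonneg (fun n _ => sq_nonneg _)) h6
    have hK0 : 0 ≤ K := by
      by_contra hneg
      push Not at hneg
      nlinarith
    calc (q : ℝ) * ((∑ p ∈ ((range q ×ˢ range q) ×ˢ (range q ×ˢ range q)).filter
        (fun p => (p.1.1 + p.1.2) % q = (p.2.1 + p.2.2) % q),
        cl S q p.1.1 * cl S q p.1.2 * (cl S q p.2.1 * cl S q p.2.2) : ℕ) : ℝ) * δ ^ 4
        ≤ (3 * x * (K * (2 * x))) * δ ^ 4 := by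
          refine mul_le_mul_of_nonneg_right (hsol.trans ?_) (by positivity)
          gcongr
      _ = 6 * K * (δ ^ 4 * (x : ℝ) ^ 2) := by ring
      _ ≤ 6 * K * (#S : ℝ) ^ 4 := by gcongr
  exact le_of_tendsto hft hfreq

/-- THE LOCAL DISTRIBUTION of a set that is not null with bounded mean square. -/
theorem nec (μ : ℕ → ℕ → ℝ) {A : Set ℕ} {K δ : ℝ} (hδ : 0 < δ)
    (hfx : ∃ᶠ x : ℕ in atTop, δ * √x < #(below A x))
    (hK : ∀ᶠ x : ℕ in atTop, ∑ n ∈ range x, (rep A n : ℝ) ^ 2 ≤ K * x)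
    {q : ℕ} (hq : 0 < q)
    (hlim : ∀ r < q, Tendsto (fun x : ℕ => (#((below A x).filter (fun n => n % q = r)) : ℝ) /
      #(below A x)) atTop (nhds (μ q r))) :
    (q : ℝ) * muE μ q ≤ 6 * K / δ ^ 4 := by
  have hne : (atTop ⊓ Filter.principal {x : ℕ | δ * √x < #(below A x)}).NeBot :=
    Filter.frequently_mem_iff_neBot.1 hfx
  exact nec_filter (atTop ⊓ Filter.principal {x : ℕ | δ * √x < #(below A x)}) inf_le_left μ hδ (Filter.eventually_inf_principal.2
    (Filter.Eventually.of_forall (fun x hx => hx))) hK hq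
    (fun r hr => (hlim r hr).mono_left inf_le_left)

end Pool.Agent.Helper38.RC
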