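import Mathlib

/-!
Independent uniform choices: expected number of solutions of linear equations.
-/

set_option autoImplicit false

open Finset

namespace Pool.Agent.Helper38.RC

variable {I : Type} [Fintype I] [DecidableEq I]

/-- a linear equation with a non-zero coefficient has few solutions -/
theorem card_eqn_le (N : ℕ) (c : I → ℤ) (s q : ℤ) (hq : q ≠ 0) (i : I) (hi : c i ≠ 0) :
    ((univ : Finset (I → Fin N)).filter (fun u => ∑ l, c l * (q * ((u l : ℕ) : ℤ)) = s)).card * N ≤
      Fintype.card (I → Fin N) := by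
  classical
  have h1 : (((univ : Finset (I → Fin N)).filter
      (fun u => ∑ l, c l * (q * ((u l : ℕ) : ℤ)) = s)) ×ˢ (univ : Finset (Fin N))).card ≤
      (univ : Finset (I → Fin N)).card := by
    refine card_le_card_of_injOn (fun p => Function.update p.1 i p.2) (fun _ _ => by simp) ?_
    rintro ⟨u, v⟩ h ⟨u', v'⟩ h' heq
    have h0 := (mem_filter.1 (mem_product.1 (mem_coe.1 h)).1).2
    have h0' := (mem_filter.1 (mem_product.1 (mem_coe.1 h')).1).2
    simp only at heq h0 h0'
    have hv : v = v' := by
      have := congrFun heq i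
      simpa using this
    have hne : ∀ l, l ≠ i → u l = u' l := by
      intro l hl
      have := congrFun heq l
      simpa [Function.update_of_ne hl] using this
    have hi' : u i = u' i := by
      rw [← Finset.add_sum_erase _ _ (mem_univ i)] at h0 h0'
      have h3 : ∑ l ∈ univ.erase i, c l * (q * ((u l : ℕ) : ℤ)) =
          ∑ l ∈ univ.erase i, c l * (q * ((u' l : ℕ) : ℤ)) :=
        Finset.sum_congr rfl (fun l hl => by rw [hne l (ne_of_mem_erase hl)])
      rw [h3, ← h0'] at h0
      have h4 : c i * (q * ((u i : ℕ) : ℤ)) = c i * (q * ((u' i : ℕ) : ℤ)) := by linarith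
      have h5 := mul_left_cancel₀ hq (mul_left_cancel₀ hi h4)
      exact Fin.ext (by exact_mod_cast h5)
    have hu : u = u' := by
      funext l
      by_cases hl : l = i
      · rw [hl]; exact hi'
      · exact hne l hl
    rw [hu, hv]
  rw [card_product, card_univ, card_univ, Fintype.card_fin] at h1
  exact h1

/-- a common good choice for two counts -/
theorem exists_both {U : Type} [Fintype U] [Nonempty U] (f g : U → ℕ) (a b : ℕ)
    (hf : ∑ u, f u ≤ a * Fintype.card U) (hg : ∑ u, g u ≤ b * Fintype.card U) :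
    ∃ u, f u ≤ 2 * a ∧ g u ≤ 2 * b := by
  classical
  have hU : 0 < Fintype.card U := Fintype.card_pos
  have key : ∀ (f : U → ℕ) (a : ℕ), ∑ u, f u ≤ a * Fintype.card U →
      2 * (univ.filter (fun u => 2 * a < f u)).card < Fintype.card U := by
    intro f a hf
    set n := (univ.filter (fun u => 2 * a < f u)).card with hn
    have h1 : n * (2 * a + 1) ≤ ∑ u, f u := by
      calc n * (2 * a + 1) = ∑ u ∈ univ.filter (fun u => 2 * a < f u), (2 * a + 1) := by
            rw [sum_const, smul_eq_mul]
        _ ≤ ∑ u ∈ univ.filter (fun u => 2 * a < f u), f u :=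
            Finset.sum_le_sum (fun u hu => (mem_filter.1 hu).2)
        _ ≤ ∑ u, f u := Finset.sum_le_sum_of_subset (filter_subset _ _)
    by_contra hcon
    have h2 : n * (2 * a + 1) ≤ a * Fintype.card U := h1.trans hf
    nlinarith
  have h1 := key f a hf
  have h2 := key g b hg
  by_contra hcon
  push Not at hcon
  have h3 : (univ : Finset U) ⊆ univ.filter (fun u => 2 * a < f u) ∪
      univ.filter (fun u => 2 * b < g u) := by
    intro u _
    rw [mem_union, mem_filter, mem_filter]
    by_cases h : f u ≤ 2 * a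
    · exact Or.inr ⟨mem_univ _, hcon u h⟩
    · exact Or.inl ⟨mem_univ _, not_le.1 h⟩
  have h4 := (card_le_card h3).trans (card_union_le _ _)
  rw [card_univ] at h4
  omega

/-- coefficient of the equation of a quadruple of indices -/
def co (p : (I × I) × (I × I)) (l : I) : ℤ :=
  ((if l = p.1.1 then 1 else 0) + (if l = p.1.2 then 1 else 0)) -
    ((if l = p.2.1 then 1 else 0) + (if l = p.2.2 then 1 else 0))

/-- the quadruple is trivial -/
def Triv (p : (I × I) × (I × I)) : Prop :=
  (p.1.1 = p.2.1 ∧ p.1.2 = p.2.2) ∨ (p.1.1 = p.2.2 ∧ p.1.2 = p.2.1)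

instance (p : (I × I) × (I × I)) : Decidable (Triv p) := by
  unfold Triv
  infer_instance

theorem exists_co {p : (I × I) × (I × I)} (h : ¬ Triv p) : ∃ l, co p l ≠ 0 := by
  obtain ⟨⟨a, b⟩, c, d⟩ := p
  simp only [Triv, not_or, not_and] at h
  by_cases h1 : a = c
  · subst h1
    have h2 : b ≠ d := h.1 rfl
    refine ⟨b, ?_⟩
    simp only [co, if_true, if_neg h2]
    split_ifs <;> norm_num
  · by_cases h2 : a = d
    · subst h2
      have h3 : b ≠ c := h.2 rfl
      refine ⟨b, ?_⟩
      simp only [co, if_true, if_neg h3]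
      split_ifs <;> norm_num
    · refine ⟨a, ?_⟩
      simp only [co, if_true, if_neg h1, if_neg h2]
      split_ifs <;> norm_num

theorem sum_co (p : (I × I) × (I × I)) (f : I → ℤ) :
    ∑ l, co p l * f l = (f p.1.1 + f p.1.2) - (f p.2.1 + f p.2.2) := by
  unfold co
  simp only [sub_mul, add_mul, ite_mul, one_mul, zero_mul, Finset.sum_sub_distrib,
    Finset.sum_add_distrib, Finset.sum_ite_eq', mem_univ, if_true]

variable (q : ℕ) (base : I → ℕ)

/-- the chosen elements -/
def el {N : ℕ} (u : I → Fin N) (i : I) : ℕ := base i + q * (u i : ℕ)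

/-- non-trivial coincidences of sums -/
def XX {N : ℕ} (u : I → Fin N) : ℕ :=
  ((univ : Finset ((I × I) × (I × I))).filter (fun p => (¬ Triv p) ∧
    el q base u p.1.1 + el q base u p.1.2 = el q base u p.2.1 + el q base u p.2.2)).card

/-- coincidences -/
def YY {N : ℕ} (u : I → Fin N) : ℕ :=
  ((univ : Finset (I × I)).filter (fun p => p.1 ≠ p.2 ∧ el q base u p.1 = el q base u p.2)).card

theorem card_el_eqn {N : ℕ} (hq : 0 < q) {p : (I × I) × (I × I)} (hp : ¬ Triv p) :
    ((univ : Finset (I → Fin N)).filter (fun u =>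
      el q base u p.1.1 + el q base u p.1.2 = el q base u p.2.1 + el q base u p.2.2)).card * N ≤
      Fintype.card (I → Fin N) := by
  obtain ⟨i, hi⟩ := exists_co hp
  refine le_trans (Nat.mul_le_mul_right _ (card_le_card ?_))
    (card_eqn_le N (co p) (((base p.2.1 : ℤ) + base p.2.2) - (base p.1.1 + base p.1.2))
      (q : ℤ) (by exact_mod_cast hq.ne') i hi)
  intro u hu
  rw [mem_filter] at hu ⊢
  refine ⟨hu.1, ?_⟩
  rw [sum_co p (fun l => (q : ℤ) * ((u l : ℕ) : ℤ))]
  have h := hu.2
  unfold el at h
  have h' : ((base p.1.1 : ℤ) + q * ((u p.1.1 : ℕ) : ℤ)) + (base p.1.2 + q * ((u p.1.2 : ℕ) : ℤ)) =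
      (base p.2.1 + q * ((u p.2.1 : ℕ) : ℤ)) + (base p.2.2 + q * ((u p.2.2 : ℕ) : ℤ)) := by
    exact_mod_cast h
  linarith

theorem sum_XX {N : ℕ} (hq : 0 < q) (Q : Finset ((I × I) × (I × I)))
    (hQ : ∀ u : I → Fin N, ∀ p, ¬ Triv p →
      el q base u p.1.1 + el q base u p.1.2 = el q base u p.2.1 + el q base u p.2.2 → p ∈ Q) :
    ∑ u : I → Fin N, XX q base u * N ≤ Q.card * Fintype.card (I → Fin N) := by
  classical
  have h1 : ∀ u : I → Fin N, XX q base u ≤ ∑ p ∈ Q, if (¬ Triv p ∧
      el q base u p.1.1 + el q base u p.1.2 = el q base u p.2.1 + el q base u p.2.2)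
        then 1 else 0 := by
    intro u
    rw [← Finset.card_filter]
    refine card_le_card (fun p hp => ?_)
    have := (mem_filter.1 hp).2
    exact mem_filter.2 ⟨hQ u p this.1 this.2, this⟩
  rw [← Finset.sum_mul]
  calc (∑ u : I → Fin N, XX q base u) * N
      ≤ (∑ u : I → Fin N, ∑ p ∈ Q, if (¬ Triv p ∧
        el q base u p.1.1 + el q base u p.1.2 = el q base u p.2.1 + el q base u p.2.2)
          then 1 else 0) * N := Nat.mul_le_mul_right _ (Finset.sum_le_sum (fun u _ => h1 u))
    _ = ∑ p ∈ Q, (∑ u : I → Fin N, if (¬ Triv p ∧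
        el q base u p.1.1 + el q base u p.1.2 = el q base u p.2.1 + el q base u p.2.2)
          then 1 else 0) * N := by rw [Finset.sum_comm, Finset.sum_mul]
    _ ≤ ∑ _p ∈ Q, Fintype.card (I → Fin N) := by
        refine Finset.sum_le_sum (fun p _ => ?_)
        by_cases hp : Triv p
        · simp [hp]
        · rw [← Finset.card_filter]
          refine le_trans (Nat.mul_le_mul_right _ (card_le_card ?_)) (card_el_eqn q base hq hp)
          intro u hu
          exact mem_filter.2 ⟨mem_univ _, (mem_filter.1 hu).2.2⟩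
    _ = _ := by rw [sum_const, smul_eq_mul]

theorem sum_YY {N : ℕ} (hq : 0 < q) :
    ∑ u : I → Fin N, YY q base u * N ≤ (Fintype.card I) ^ 2 * Fintype.card (I → Fin N) := by
  classical
  rw [← Finset.sum_mul]
  have h1 : ∀ u : I → Fin N, YY q base u = ∑ p : I × I, if (p.1 ≠ p.2 ∧
      el q base u p.1 = el q base u p.2) then 1 else 0 := by
    intro u
    unfold YY
    rw [Finset.card_filter]
  calc (∑ u : I → Fin N, YY q base u) * N
      = ∑ p : I × I, (∑ u : I → Fin N, if (p.1 ≠ p.2 ∧
      el q base u p.1 = el q base u p.2) then 1 else 0) * N := by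
        rw [Finset.sum_congr rfl (fun u _ => h1 u), Finset.sum_comm, Finset.sum_mul]
    _ ≤ ∑ _p : I × I, Fintype.card (I → Fin N) := by
        refine Finset.sum_le_sum (fun p _ => ?_)
        by_cases hp : p.1 = p.2
        · simp [hp]
        · have hT : ¬ Triv ((p.1, p.1), (p.2, p.1)) := by
            rintro (⟨h1, _⟩ | ⟨_, h1⟩)
            · exact hp h1
            · exact hp h1
          rw [← Finset.card_filter]
          refine le_trans (Nat.mul_le_mul_right _ (card_le_card ?_)) (card_el_eqn q base hq hT)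
          intro u hu
          refine mem_filter.2 ⟨mem_univ _, ?_⟩
          have := (mem_filter.1 hu).2.2
          simp only
          omega
    _ = _ := by rw [sum_const, smul_eq_mul, card_univ, Fintype.card_prod, sq]

/-- a choice with few coincidences of sums and few coincidences -/
theorem exists_choice {N : ℕ} (hN : 0 < N) (hq : 0 < q) (Q : Finset ((I × I) × (I × I)))
    (hQ : ∀ u : I → Fin N, ∀ p, ¬ Triv p →
      el q base u p.1.1 + el q base u p.1.2 = el q base u p.2.1 + el q base u p.2.2 → p ∈ Q) :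
    ∃ u : I → Fin N, XX q base u * N ≤ 2 * Q.card ∧
      YY q base u * N ≤ 2 * (Fintype.card I) ^ 2 := by
  have : Nonempty (Fin N) := ⟨⟨0, hN⟩⟩
  exact exists_both (fun u => XX q base u * N) (fun u => YY q base u * N) _ _
    (sum_XX q base hq Q hQ) (sum_YY q base hq)

/-- the additive energy of the image -/
theorem energy_image_le {N : ℕ} (u : I → Fin N) (B : Finset ℕ) (hB : B = univ.image (el q base u)) :
    (((B ×ˢ B) ×ˢ (B ×ˢ B)).filter (fun p => p.1.1 + p.1.2 = p.2.1 + p.2.2)).card ≤
      XX q base u + 2 * (Fintype.card I) ^ 2 := by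
  classical
  set S : Finset ((I × I) × (I × I)) := univ.filter (fun p =>
    el q base u p.1.1 + el q base u p.1.2 = el q base u p.2.1 + el q base u p.2.2) with hS
  have h1 : ((B ×ˢ B) ×ˢ (B ×ˢ B)).filter (fun p => p.1.1 + p.1.2 = p.2.1 + p.2.2) ⊆
      S.image (fun p => ((el q base u p.1.1, el q base u p.1.2),
        (el q base u p.2.1, el q base u p.2.2))) := by
    rintro ⟨⟨a, b⟩, c, d⟩ hp
    rw [mem_filter, mem_product, mem_product, mem_product] at hp
    obtain ⟨⟨⟨ha, hb⟩, hc, hd⟩, he⟩ := hp
    rw [hB] at ha hb hc hd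
    obtain ⟨i, _, rfl⟩ := mem_image.1 ha
    obtain ⟨j, _, rfl⟩ := mem_image.1 hb
    obtain ⟨k, _, rfl⟩ := mem_image.1 hc
    obtain ⟨l, _, rfl⟩ := mem_image.1 hd
    exact mem_image.2 ⟨((i, j), (k, l)), mem_filter.2 ⟨mem_univ _, he⟩, rfl⟩
  have h2 : S ⊆ (univ.filter (fun p => (¬ Triv p) ∧
      el q base u p.1.1 + el q base u p.1.2 = el q base u p.2.1 + el q base u p.2.2)) ∪
      ((univ : Finset (I × I)).image (fun t => ((t.1, t.2), (t.1, t.2))) ∪
       (univ : Finset (I × I)).image (fun t => ((t.1, t.2), (t.2, t.1)))) := by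
    rintro ⟨⟨a, b⟩, c, d⟩ hp
    by_cases hT : Triv ((a, b), (c, d))
    · refine mem_union_right _ ?_
      rcases hT with ⟨h3, h4⟩ | ⟨h3, h4⟩
      · simp only at h3 h4
        subst h3 h4
        exact mem_union_left _ (mem_image.2 ⟨(a, b), mem_univ _, rfl⟩)
      · simp only at h3 h4
        subst h3 h4
        exact mem_union_right _ (mem_image.2 ⟨(a, b), mem_univ _, rfl⟩)
    · exact mem_union_left _ (mem_filter.2 ⟨mem_univ _, hT, (mem_filter.1 hp).2⟩)
  have h3 : (univ : Finset (I × I)).card = (Fintype.card I) ^ 2 := by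
    rw [card_univ, Fintype.card_prod, sq]
  have h4 := (card_le_card h2).trans ((card_union_le _ _).trans
    (Nat.add_le_add_left ((card_union_le _ _).trans (Nat.add_le_add card_image_le card_image_le)) _))
  rw [h3] at h4
  have h5 := (card_le_card h1).trans card_image_le
  unfold XX
  omega

/-- few coincidences: the image of a set of indices is nearly as large -/
theorem card_le_image {α : Type} [DecidableEq α] (f : α → ℕ) (S : Finset α) :
    S.card ≤ (S.image f).card + ((S ×ˢ S).filter (fun p => p.1 ≠ p.2 ∧ f p.1 = f p.2)).card := by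
  classical
  induction S using Finset.induction_on with
  | empty => simp
  | insert a S ha ih =>
    rw [card_insert_of_notMem ha, image_insert]
    have hmono : ((S ×ˢ S).filter (fun p => p.1 ≠ p.2 ∧ f p.1 = f p.2)) ⊆
        ((insert a S ×ˢ insert a S).filter (fun p => p.1 ≠ p.2 ∧ f p.1 = f p.2)) :=
      filter_subset_filter _ (product_subset_product (subset_insert _ _) (subset_insert _ _))
    by_cases h : f a ∈ S.image f
    · obtain ⟨b, hb, hab⟩ := mem_image.1 h
      have hlt : ((S ×ˢ S).filter (fun p => p.1 ≠ p.2 ∧ f p.1 = f p.2)) ⊂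
          ((insert a S ×ˢ insert a S).filter (fun p => p.1 ≠ p.2 ∧ f p.1 = f p.2)) := by
        refine (ssubset_iff_of_subset hmono).2 ⟨(a, b), ?_, ?_⟩
        · refine mem_filter.2 ⟨mem_product.2 ⟨mem_insert_self _ _, mem_insert_of_mem hb⟩, ?_, ?_⟩
          · intro hab'
            have h3 : a = b := hab'
            rw [h3] at ha
            exact ha hb
          · exact hab.symm
        · intro h'
          exact ha (mem_product.1 (mem_filter.1 h').1).1
      have := card_lt_card hlt
      rw [insert_eq_of_mem h]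
      omega
    · rw [card_insert_of_notMem h]
      have := card_le_card hmono
      omega

end Pool.Agent.Helper38.RC
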