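import Pool.Agent.Helper38.RC.Prob

/-!
One scale of the construction of a set with given distribution in residue classes.
-/

set_option autoImplicit false

open Finset

namespace Pool.Agent.Helper38.RC

/-- the energy of a distribution modulo `q` -/
noncomputable def muE (μ : ℕ → ℕ → ℝ) (q : ℕ) : ℝ :=
  ∑ p ∈ ((range q ×ˢ range q) ×ˢ (range q ×ˢ range q)).filter
    (fun p => (p.1.1 + p.1.2) % q = (p.2.1 + p.2.2) % q),
    μ q p.1.1 * μ q p.1.2 * (μ q p.2.1 * μ q p.2.2)

variable (k q m W : ℕ) (n : ℕ → ℕ)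

/-- indices in one window -/
abbrev Jx : Type := Σ r : Fin q, Fin (n r)

/-- all indices -/
abbrev Ix : Type := Fin k × Jx q n

/-- the shift that corrects the residue class -/
def rho (w r : ℕ) : ℕ := (r + (q - (m + w * W) % q)) % q

/-- the base points -/
def bs (i : Ix k q n) : ℕ := (i.1 : ℕ) * W + rho q m W (i.1 : ℕ) (i.2.1 : ℕ)

theorem rho_lt (hq : 0 < q) (w r : ℕ) : rho q m W w r < q := Nat.mod_lt _ hq

theorem rho_class (hq : 0 < q) (w r u : ℕ) (hr : r < q) :
    (m + (w * W + rho q m W w r + q * u)) % q = r := by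
  unfold rho
  have h1 : m + (w * W + (r + (q - (m + w * W) % q)) % q + q * u) =
      ((m + w * W) + (r + (q - (m + w * W) % q)) % q) + q * u := by ring
  rw [h1, Nat.add_mul_mod_self_left, Nat.add_mod, Nat.mod_mod, ← Nat.add_mod]
  have h2 : (m + w * W) % q < q := Nat.mod_lt _ hq
  have h3 : m + w * W + (r + (q - (m + w * W) % q)) =
      r + q * ((m + w * W) / q + 1) := by
    have h4 := Nat.div_add_mod (m + w * W) q
    have h5 : q * ((m + w * W) / q + 1) = q * ((m + w * W) / q) + q := by ring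
    omega
  rw [h3, Nat.add_mul_mod_self_left, Nat.mod_eq_of_lt hr]

theorem el_lower {N : ℕ} (u : Ix k q n → Fin N) (i : Ix k q n) :
    (i.1 : ℕ) * W ≤ el q (bs k q m W n) u i := by
  unfold el bs
  omega

theorem el_upper (hq : 0 < q) {N : ℕ} (hN : q * N ≤ W) (u : Ix k q n → Fin N) (i : Ix k q n) :
    el q (bs k q m W n) u i < ((i.1 : ℕ) + 1) * W := by
  unfold el bs
  have h1 := rho_lt q m W hq (i.1 : ℕ) (i.2.1 : ℕ)
  have h2 : q * ((u i : ℕ) + 1) ≤ q * N := Nat.mul_le_mul_left _ (u i).2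
  have h3 : q * ((u i : ℕ) + 1) = q * (u i : ℕ) + q := by ring
  have h4 : ((i.1 : ℕ) + 1) * W = (i.1 : ℕ) * W + W := by ring
  omega

theorem el_class (hq : 0 < q) {N : ℕ} (u : Ix k q n → Fin N) (i : Ix k q n) :
    (m + el q (bs k q m W n) u i) % q = (i.2.1 : ℕ) := by
  unfold el bs
  exact rho_class q m W hq _ _ _ i.2.1.2

/-- quadruples of windows -/
def WQ : Finset ((Fin k × Fin k) × (Fin k × Fin k)) := univ.filter (fun p =>
  (p.2.1 : ℕ) + p.2.2 ≤ (p.1.1 : ℕ) + p.1.2 + 1 ∧ (p.1.1 : ℕ) + p.1.2 ≤ (p.2.1 : ℕ) + p.2.2 + 1)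

theorem card_WQ : (WQ k).card ≤ 3 * k ^ 3 := by
  have h : (WQ k).card ≤ ((univ : Finset ((Fin k × Fin k) × Fin k)) ×ˢ range 3).card := by
    refine card_le_card_of_injOn (fun p => (((p.1.1, p.1.2), p.2.1),
      (p.1.1 : ℕ) + p.1.2 + 1 - ((p.2.1 : ℕ) + p.2.2))) ?_ ?_
    · intro p hp
      have hp' := (mem_filter.1 (mem_coe.1 hp)).2
      rw [mem_coe, mem_product, mem_range]
      refine ⟨mem_univ _, ?_⟩
      show (p.1.1 : ℕ) + p.1.2 + 1 - ((p.2.1 : ℕ) + p.2.2) < 3
      omega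
    · rintro ⟨⟨a, b⟩, c, d⟩ hp ⟨⟨a', b'⟩, c', d'⟩ hp' h
      have h1 := (mem_filter.1 (mem_coe.1 hp)).2
      have h1' := (mem_filter.1 (mem_coe.1 hp')).2
      simp only [Prod.mk.injEq] at h h1 h1'
      obtain ⟨⟨⟨h2, h3⟩, h4⟩, h5⟩ := h
      subst h2 h3 h4
      have : d = d' := Fin.ext (by omega)
      rw [this]
  rw [card_product, card_univ, card_range, Fintype.card_prod, Fintype.card_prod,
    Fintype.card_fin] at h
  refine h.trans (le_of_eq (by ring))

/-- quadruples of indices in one window -/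
def JQ : Finset ((Jx q n × Jx q n) × (Jx q n × Jx q n)) := univ.filter (fun p =>
  ((p.1.1.1 : ℕ) + p.1.2.1) % q = ((p.2.1.1 : ℕ) + p.2.2.1) % q)

theorem card_class_Jx {r : ℕ} (hr : r < q) :
    ((univ : Finset (Jx q n)).filter (fun j => (j.1 : ℕ) = r)).card = n r := by
  rw [Finset.card_filter, Fintype.sum_sigma]
  have h1 : ∀ x : Fin q, (∑ y : Fin (n x), if ((⟨x, y⟩ : Jx q n).1 : ℕ) = r then 1 else 0) =
      if x = ⟨r, hr⟩ then n r else 0 := by
    intro x
    by_cases hx : x = ⟨r, hr⟩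
    · subst hx
      simp
    · have : (x : ℕ) ≠ r := fun h => hx (Fin.ext h)
      simp [hx, this]
  rw [Finset.sum_congr rfl (fun x _ => h1 x)]
  simp

theorem card_JQ : (JQ q n).card = ∑ p ∈ ((range q ×ˢ range q) ×ˢ (range q ×ˢ range q)).filter
    (fun p => (p.1.1 + p.1.2) % q = (p.2.1 + p.2.2) % q),
    n p.1.1 * n p.1.2 * (n p.2.1 * n p.2.2) := by
  classical
  rw [Finset.card_eq_sum_card_fiberwise
    (f := fun p : (Jx q n × Jx q n) × (Jx q n × Jx q n) =>
      (((p.1.1.1 : ℕ), (p.1.2.1 : ℕ)), ((p.2.1.1 : ℕ), (p.2.2.1 : ℕ))))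
    (t := ((range q ×ˢ range q) ×ˢ (range q ×ˢ range q)).filter
      (fun p => (p.1.1 + p.1.2) % q = (p.2.1 + p.2.2) % q))]
  · refine Finset.sum_congr rfl (fun p hp => ?_)
    rw [mem_filter, mem_product, mem_product, mem_product, mem_range, mem_range, mem_range,
      mem_range] at hp
    obtain ⟨⟨⟨h1, h2⟩, h3, h4⟩, h5⟩ := hp
    rw [← card_class_Jx q n h1, ← card_class_Jx q n h2, ← card_class_Jx q n h3,
      ← card_class_Jx q n h4, ← card_product, ← card_product, ← card_product]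
    congr 1
    ext ⟨⟨a, b⟩, c, d⟩
    obtain ⟨⟨x, y⟩, z, t⟩ := p
    simp only [JQ, mem_filter, mem_product, mem_univ, true_and, Prod.mk.injEq]
    constructor
    · rintro ⟨_, h6⟩
      exact h6
    · intro h6
      refine ⟨?_, h6⟩
      obtain ⟨⟨h7, h8⟩, h9, h10⟩ := h6
      rw [h7, h8, h9, h10]
      exact h5
  · intro p hp
    have := (mem_filter.1 (mem_coe.1 hp)).2
    rw [mem_coe, mem_filter, mem_product, mem_product, mem_product, mem_range, mem_range,
      mem_range, mem_range]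
    exact ⟨⟨⟨p.1.1.1.2, p.1.2.1.2⟩, p.2.1.1.2, p.2.2.1.2⟩, this⟩

/-- quadruples of indices -/
def IQ : Finset ((Ix k q n × Ix k q n) × (Ix k q n × Ix k q n)) := univ.filter (fun p =>
  ((p.1.1.1, p.1.2.1), (p.2.1.1, p.2.2.1)) ∈ WQ k ∧
  ((p.1.1.2, p.1.2.2), (p.2.1.2, p.2.2.2)) ∈ JQ q n)

theorem card_IQ : (IQ k q n).card ≤ 3 * k ^ 3 * (JQ q n).card := by
  classical
  have h : (IQ k q n).card ≤ (WQ k ×ˢ JQ q n).card := by
    refine card_le_card_of_injOn (fun p => (((p.1.1.1, p.1.2.1), (p.2.1.1, p.2.2.1)),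
      ((p.1.1.2, p.1.2.2), (p.2.1.2, p.2.2.2)))) ?_ ?_
    · intro p hp
      have := (mem_filter.1 (mem_coe.1 hp)).2
      rw [mem_coe, mem_product]
      exact this
    · rintro ⟨⟨⟨a, a'⟩, ⟨b, b'⟩⟩, ⟨c, c'⟩, ⟨d, d'⟩⟩ _ ⟨⟨⟨x, x'⟩, ⟨y, y'⟩⟩, ⟨z, z'⟩, ⟨t, t'⟩⟩ _ h
      simp only [Prod.mk.injEq] at h ⊢
      obtain ⟨⟨⟨h1, h2⟩, h3, h4⟩, ⟨h5, h6⟩, h7, h8⟩ := h
      exact ⟨⟨⟨h1, h5⟩, h2, h6⟩, ⟨h3, h7⟩, h4, h8⟩
  rw [card_product] at h
  exact h.trans (Nat.mul_le_mul_right _ (card_WQ k))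

theorem mem_IQ (hq : 0 < q) {N : ℕ} (hN : q * N ≤ W) (u : Ix k q n → Fin N)
    (p : (Ix k q n × Ix k q n) × (Ix k q n × Ix k q n))
    (h : el q (bs k q m W n) u p.1.1 + el q (bs k q m W n) u p.1.2 =
      el q (bs k q m W n) u p.2.1 + el q (bs k q m W n) u p.2.2) : p ∈ IQ k q n := by
  unfold IQ
  refine mem_filter.2 ⟨mem_univ _, mem_filter.2 ⟨mem_univ _, ?_⟩, mem_filter.2 ⟨mem_univ _, ?_⟩⟩
  · have l1 := el_lower k q m W n u p.1.1
    have l2 := el_lower k q m W n u p.1.2
    have l3 := el_lower k q m W n u p.2.1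
    have l4 := el_lower k q m W n u p.2.2
    have u1 := el_upper k q m W n hq hN u p.1.1
    have u2 := el_upper k q m W n hq hN u p.1.2
    have u3 := el_upper k q m W n hq hN u p.2.1
    have u4 := el_upper k q m W n hq hN u p.2.2
    constructor
    · show (p.2.1.1 : ℕ) + p.2.2.1 ≤ (p.1.1.1 : ℕ) + p.1.2.1 + 1
      have h1 : ((p.2.1.1 : ℕ) + p.2.2.1) * W < ((p.1.1.1 : ℕ) + p.1.2.1 + 1 + 1) * W := by
        calc ((p.2.1.1 : ℕ) + p.2.2.1) * W = (p.2.1.1 : ℕ) * W + (p.2.2.1 : ℕ) * W := by ring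
          _ ≤ _ := Nat.add_le_add l3 l4
          _ = _ := h.symm
          _ < ((p.1.1.1 : ℕ) + 1) * W + ((p.1.2.1 : ℕ) + 1) * W := Nat.add_lt_add u1 u2
          _ = _ := by ring
      have := lt_of_mul_lt_mul_right h1 (Nat.zero_le W)
      omega
    · show (p.1.1.1 : ℕ) + p.1.2.1 ≤ (p.2.1.1 : ℕ) + p.2.2.1 + 1
      have h1 : ((p.1.1.1 : ℕ) + p.1.2.1) * W < ((p.2.1.1 : ℕ) + p.2.2.1 + 1 + 1) * W := by
        calc ((p.1.1.1 : ℕ) + p.1.2.1) * W = (p.1.1.1 : ℕ) * W + (p.1.2.1 : ℕ) * W := by ring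
          _ ≤ _ := Nat.add_le_add l1 l2
          _ = _ := h
          _ < ((p.2.1.1 : ℕ) + 1) * W + ((p.2.2.1 : ℕ) + 1) * W := Nat.add_lt_add u3 u4
          _ = _ := by ring
      have := lt_of_mul_lt_mul_right h1 (Nat.zero_le W)
      omega
  · show ((p.1.1.2.1 : ℕ) + p.1.2.2.1) % q = ((p.2.1.2.1 : ℕ) + p.2.2.2.1) % q
    have c1 := el_class k q m W n hq u p.1.1
    have c2 := el_class k q m W n hq u p.1.2
    have c3 := el_class k q m W n hq u p.2.1
    have c4 := el_class k q m W n hq u p.2.2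
    rw [← c1, ← c2, ← c3, ← c4, ← Nat.add_mod, ← Nat.add_mod]
    congr 1
    omega

/-- indices in one window with class in a given set -/
def JP (P : ℕ → Prop) [DecidablePred P] : Finset (Jx q n) := univ.filter (fun j => P (j.1 : ℕ))

theorem card_JP (P : ℕ → Prop) [DecidablePred P] :
    (JP q n P).card = ∑ r ∈ (range q).filter P, n r := by
  classical
  rw [Finset.card_eq_sum_card_fiberwise (f := fun j : Jx q n => (j.1 : ℕ))
    (t := (range q).filter P)]
  · refine Finset.sum_congr rfl (fun r hr => ?_)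
    rw [mem_filter, mem_range] at hr
    rw [← card_class_Jx q n hr.1]
    congr 1
    ext j
    simp only [JP, mem_filter, mem_univ, true_and]
    constructor
    · rintro ⟨_, h⟩
      exact h
    · intro h
      exact ⟨h ▸ hr.2, h⟩
  · intro j hj
    rw [mem_coe, mem_filter, mem_range]
    exact ⟨j.1.2, (mem_filter.1 (mem_coe.1 hj)).2⟩

/-- indices with element below `y` and class in a given set -/
def CI {N : ℕ} (u : Ix k q n → Fin N) (y : ℕ) (P : ℕ → Prop) [DecidablePred P] :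
    Finset (Ix k q n) :=
  univ.filter (fun i => el q (bs k q m W n) u i < y ∧ P (i.2.1 : ℕ))

theorem CI_lower (hq : 0 < q) {N : ℕ} (hN : q * N ≤ W) (u : Ix k q n → Fin N)
    (y : ℕ) (P : ℕ → Prop) [DecidablePred P] :
    min k (y / W) * (JP q n P).card ≤ (CI k q m W n u y P).card := by
  classical
  have h : ((univ.filter (fun w : Fin k => (w : ℕ) < min k (y / W))) ×ˢ JP q n P).card ≤
      (CI k q m W n u y P).card := by
    refine card_le_card (fun i hi => ?_)
    rw [mem_product, mem_filter] at hi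
    obtain ⟨⟨_, h1⟩, h2⟩ := hi
    refine mem_filter.2 ⟨mem_univ _, ?_, (mem_filter.1 h2).2⟩
    have h3 := el_upper k q m W n hq hN u i
    have h4 : ((i.1 : ℕ) + 1) * W ≤ (y / W) * W :=
      Nat.mul_le_mul_right _ (by have := lt_of_lt_of_le h1 (min_le_right _ _); omega)
    have h5 := Nat.div_mul_le_self y W
    omega
  rw [card_product] at h
  refine le_trans (Nat.mul_le_mul_right _ (le_of_eq ?_)) h
  have h6 : (univ.filter (fun w : Fin k => (w : ℕ) < min k (y / W))).card =
      (range (min k (y / W))).card := by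
    refine card_bij (fun w _ => (w : ℕ)) ?_ ?_ ?_
    · intro w hw
      exact mem_range.2 (mem_filter.1 hw).2
    · intro a _ b _ h
      exact Fin.ext h
    · intro b hb
      have hb' := mem_range.1 hb
      exact ⟨⟨b, lt_of_lt_of_le hb' (min_le_left _ _)⟩, mem_filter.2 ⟨mem_univ _, hb'⟩, rfl⟩
  rw [h6, card_range]

theorem CI_upper (hW : 0 < W) {N : ℕ} (u : Ix k q n → Fin N)
    (y : ℕ) (P : ℕ → Prop) [DecidablePred P] :
    (CI k q m W n u y P).card ≤ (min k (y / W) + 1) * (JP q n P).card := by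
  classical
  have h : (CI k q m W n u y P).card ≤
      ((univ.filter (fun w : Fin k => (w : ℕ) < min k (y / W) + 1)) ×ˢ JP q n P).card := by
    refine card_le_card (fun i hi => ?_)
    obtain ⟨_, h1, h2⟩ := mem_filter.1 hi
    refine mem_product.2 ⟨mem_filter.2 ⟨mem_univ _, ?_⟩, mem_filter.2 ⟨mem_univ _, h2⟩⟩
    have h3 := el_lower k q m W n u i
    have h4 : (i.1 : ℕ) ≤ y / W := (Nat.le_div_iff_mul_le hW).2 (by omega)
    have h5 := i.1.2
    show (i.1 : ℕ) < min k (y / W) + 1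
    have : (i.1 : ℕ) ≤ min k (y / W) := le_min h5.le h4
    omega
  rw [card_product] at h
  refine h.trans (Nat.mul_le_mul_right _ ?_)
  have h6 : (univ.filter (fun w : Fin k => (w : ℕ) < min k (y / W) + 1)).card ≤
      (range (min k (y / W) + 1)).card := by
    refine card_le_card_of_injOn (fun w => (w : ℕ)) ?_ ?_
    · intro w hw
      exact mem_coe.2 (mem_range.2 (mem_filter.1 (mem_coe.1 hw)).2)
    · intro a _ b _ h
      exact Fin.ext h
  rw [card_range] at h6
  exact h6

/-- One scale: a set below `m/2` with few coincidences of sums, whose translate by `m` follows the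
distribution `μ q` in the residue classes modulo `q`, uniformly up to any point. -/
theorem one_scale (μ : ℕ → ℕ → ℝ) (h0 : ∀ q r, 0 ≤ μ q r) {C0 : ℝ} {k q m : ℕ}
    (h1 : ∑ r ∈ range q, μ q r = 1) (hE : (q : ℝ) * muE μ q ≤ C0) (hk : 0 < k) (hq : 0 < q)
    (hm : 4 * k * q ≤ m) :
    ∃ B : Finset ℕ, (∀ b ∈ B, 2 * b < m) ∧
      ((((B ×ˢ B) ×ˢ (B ×ˢ B)).filter (fun p => p.1.1 + p.1.2 = p.2.1 + p.2.2)).card : ℝ) ≤
        (24 * C0 + 2) * m ∧
      √(m : ℝ) - 9 * k * q ≤ B.card ∧
      ∀ (y : ℕ) (P : ℕ → Prop) [DecidablePred P],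
        |((B.filter (fun b => b < y ∧ P ((m + b) % q))).card : ℝ) -
          (∑ r ∈ (range q).filter P, μ q r) * (B.filter (fun b => b < y)).card| ≤
          √(m : ℝ) / k + 9 * k * q := by
  classical
  have hkR : (0 : ℝ) < k := by exact_mod_cast hk
  have hqR : (0 : ℝ) < q := by exact_mod_cast hq
  have hm0 : 0 < m := lt_of_lt_of_le (by positivity) hm
  have hmR : (0 : ℝ) < m := by exact_mod_cast hm0
  set lam : ℝ := √(m : ℝ) / k with hlam
  have hlam0 : 0 ≤ lam := by positivity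
  set n : ℕ → ℕ := fun r => ⌊lam * μ q r⌋₊ with hn
  have hn1 : ∀ r, (n r : ℝ) ≤ lam * μ q r := fun r =>
    Nat.floor_le (mul_nonneg hlam0 (h0 q r))
  have hn2 : ∀ r, lam * μ q r - 1 ≤ (n r : ℝ) := fun r => by
    have := Nat.lt_floor_add_one (lam * μ q r)
    simp only [hn]
    linarith
  set W : ℕ := m / (2 * k) with hW
  set N : ℕ := W / q with hN
  have hqN : q * N ≤ W := Nat.mul_div_le W q
  have hW2 : 2 * q ≤ W := by
    rw [hW, Nat.le_div_iff_mul_le (by positivity)]
    calc 2 * q * (2 * k) = 4 * k * q := by ring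
      _ ≤ m := hm
  have hW0 : 0 < W := by omega
  have hN0 : 0 < N := Nat.div_pos (by omega) hq
  have hmN : m ≤ 4 * k * q * N := by
    have h2 : m < (2 * k * q) * (N + 1) := by
      have : N = m / (2 * k * q) := by rw [hN, hW, Nat.div_div_eq_div_mul]
      rw [this]
      exact Nat.lt_mul_div_succ m (by positivity)
    nlinarith [Nat.mul_le_mul_left (2 * k * q) hN0]
  obtain ⟨u, hX, hY⟩ := exists_choice q (bs k q m W n) hN0 hq (IQ k q n)
    (fun u p _ h => mem_IQ k q m W n hq hqN u p h)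
  -- sums of `n`
  have hJ1 : ∀ (P : ℕ → Prop) [DecidablePred P], ((JP q n P).card : ℝ) ≤
      lam * ∑ r ∈ (range q).filter P, μ q r := by
    intro P _
    rw [card_JP, Finset.mul_sum]
    push_cast
    exact Finset.sum_le_sum (fun r _ => hn1 r)
  have hJ2 : ∀ (P : ℕ → Prop) [DecidablePred P],
      lam * (∑ r ∈ (range q).filter P, μ q r) - q ≤ ((JP q n P).card : ℝ) := by
    intro P _
    rw [card_JP, Finset.mul_sum]
    push_cast
    have h2 : ∑ r ∈ (range q).filter P, (lam * μ q r - 1) ≤ ∑ r ∈ (range q).filter P, (n r : ℝ) :=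
      Finset.sum_le_sum (fun r _ => hn2 r)
    rw [Finset.sum_sub_distrib, Finset.sum_const, nsmul_eq_mul, mul_one] at h2
    have h3 : (((range q).filter P).card : ℝ) ≤ q := by
      have := card_filter_le (range q) P
      rw [card_range] at this
      exact_mod_cast this
    linarith
  have hT : (range q).filter (fun _ => True) = range q := filter_true_of_mem (fun _ _ => trivial)
  have hcardI : (Fintype.card (Ix k q n) : ℝ) = k * ((JP q n (fun _ => True)).card : ℝ) := by
    have h2 : (JP q n (fun _ => True)).card = Fintype.card (Jx q n) := by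
      unfold JP
      rw [filter_true_of_mem (fun _ _ => trivial), card_univ]
    rw [h2, Fintype.card_prod, Fintype.card_fin]
    push_cast
    ring
  have hklam : (k : ℝ) * lam = √(m : ℝ) := by rw [hlam]; field_simp
  have hI1 : (Fintype.card (Ix k q n) : ℝ) ≤ √(m : ℝ) := by
    have h2 := hJ1 (fun _ => True)
    rw [hT, h1, mul_one] at h2
    rw [hcardI, ← hklam]
    gcongr
  have hI2 : √(m : ℝ) - k * q ≤ (Fintype.card (Ix k q n) : ℝ) := by
    have h2 := hJ2 (fun _ => True)
    rw [hT, h1, mul_one] at h2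
    rw [hcardI, ← hklam]
    have := mul_le_mul_of_nonneg_left h2 hkR.le
    linarith
  have hIm : (Fintype.card (Ix k q n)) ^ 2 ≤ m := by
    have h2 : ((Fintype.card (Ix k q n) : ℝ)) ^ 2 ≤ (m : ℝ) := by
      calc ((Fintype.card (Ix k q n) : ℝ)) ^ 2 ≤ (√(m : ℝ)) ^ 2 := by gcongr
        _ = (m : ℝ) := Real.sq_sqrt hmR.le
    exact_mod_cast h2
  have hYY : YY q (bs k q m W n) u ≤ 8 * k * q := by
    have h2 : YY q (bs k q m W n) u * N ≤ (8 * k * q) * N := by
      calc YY q (bs k q m W n) u * N ≤ 2 * (Fintype.card (Ix k q n)) ^ 2 := hY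
        _ ≤ 2 * m := Nat.mul_le_mul_left _ hIm
        _ ≤ 2 * (4 * k * q * N) := Nat.mul_le_mul_left _ hmN
        _ = _ := by ring
    exact Nat.le_of_mul_le_mul_right h2 hN0
  have hJQ : ((JQ q n).card : ℝ) ≤ lam ^ 4 * muE μ q := by
    rw [card_JQ]
    unfold muE
    rw [Finset.mul_sum]
    push_cast
    refine Finset.sum_le_sum (fun p _ => ?_)
    have a1 := hn1 p.1.1
    have a2 := hn1 p.1.2
    have a3 := hn1 p.2.1
    have a4 := hn1 p.2.2
    have b1 := h0 q p.1.1
    have b2 := h0 q p.1.2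
    have b3 := h0 q p.2.1
    have b4 := h0 q p.2.2
    calc (n p.1.1 : ℝ) * n p.1.2 * (n p.2.1 * n p.2.2)
        ≤ (lam * μ q p.1.1) * (lam * μ q p.1.2) * ((lam * μ q p.2.1) * (lam * μ q p.2.2)) := by
          gcongr
      _ = _ := by ring
  have hXX : (XX q (bs k q m W n) u : ℝ) ≤ 24 * C0 * m := by
    have h2 : (XX q (bs k q m W n) u : ℝ) * N ≤ 6 * (k : ℝ) ^ 3 * (lam ^ 4 * muE μ q) := by
      have h3 : (XX q (bs k q m W n) u : ℝ) * N ≤ 2 * ((IQ k q n).card : ℝ) := by
        exact_mod_cast hX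
      have h4 : ((IQ k q n).card : ℝ) ≤ 3 * (k : ℝ) ^ 3 * (JQ q n).card := by
        exact_mod_cast card_IQ k q n
      have h5 : 3 * (k : ℝ) ^ 3 * (JQ q n).card ≤ 3 * (k : ℝ) ^ 3 * (lam ^ 4 * muE μ q) := by
        gcongr
      linarith
    have h3 : lam ^ 4 = (m : ℝ) ^ 2 / k ^ 4 := by
      rw [hlam, div_pow]
      congr 1
      calc (√(m : ℝ)) ^ 4 = ((√(m : ℝ)) ^ 2) ^ 2 := by ring
        _ = _ := by rw [Real.sq_sqrt hmR.le]
    have h4 : (m : ℝ) ≤ 4 * k * q * N := by exact_mod_cast hmN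
    have h5 : (m : ℝ) * XX q (bs k q m W n) u ≤ m * (24 * C0 * m) := by
      calc (m : ℝ) * XX q (bs k q m W n) u
          ≤ (4 * k * q * N) * XX q (bs k q m W n) u := by gcongr
        _ = 4 * k * q * (XX q (bs k q m W n) u * N) := by ring
        _ ≤ 4 * k * q * (6 * (k : ℝ) ^ 3 * (lam ^ 4 * muE μ q)) := by gcongr
        _ = 24 * (m : ℝ) ^ 2 * (q * muE μ q) := by
            rw [h3]
            field_simp
            ring
        _ ≤ 24 * (m : ℝ) ^ 2 * C0 := by gcongr
        _ = _ := by ring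
    exact le_of_mul_le_mul_left h5 hmR
  set B : Finset ℕ := univ.image (el q (bs k q m W n) u) with hB
  -- cardinalities of images
  have himg : ∀ (y : ℕ) (P : ℕ → Prop) [DecidablePred P],
      B.filter (fun b => b < y ∧ P ((m + b) % q)) =
        (CI k q m W n u y P).image (el q (bs k q m W n) u) := by
    intro y P _
    ext b
    simp only [hB, CI, mem_filter, mem_image, mem_univ, true_and]
    constructor
    · rintro ⟨⟨i, rfl⟩, h2, h3⟩
      rw [el_class k q m W n hq u i] at h3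
      exact ⟨i, ⟨h2, h3⟩, rfl⟩
    · rintro ⟨i, ⟨h2, h3⟩, rfl⟩
      rw [← el_class k q m W n hq u i] at h3
      exact ⟨⟨i, rfl⟩, h2, h3⟩
  have hcoll : ∀ S : Finset (Ix k q n), S.card ≤ (S.image (el q (bs k q m W n) u)).card +
      YY q (bs k q m W n) u := by
    intro S
    refine (card_le_image (el q (bs k q m W n) u) S).trans (Nat.add_le_add_left ?_ _)
    unfold YY
    exact card_le_card (fun p hp => mem_filter.2 ⟨mem_univ _, (mem_filter.1 hp).2⟩)
  have hYR : (YY q (bs k q m W n) u : ℝ) ≤ 8 * k * q := by exact_mod_cast hYY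
  refine ⟨B, ?_, ?_, ?_, ?_⟩
  · intro b hb
    obtain ⟨i, _, rfl⟩ := mem_image.1 hb
    have h2 := el_upper k q m W n hq hqN u i
    have h3 : ((i.1 : ℕ) + 1) * W ≤ k * W := Nat.mul_le_mul_right _ i.1.2
    have h4 : 2 * (k * W) ≤ m := by
      calc 2 * (k * W) = (2 * k) * (m / (2 * k)) := by rw [hW]; ring
        _ ≤ m := Nat.mul_div_le _ _
    omega
  · have h2 := energy_image_le q (bs k q m W n) u B hB
    have h3 : ((((B ×ˢ B) ×ˢ (B ×ˢ B)).filter
        (fun p => p.1.1 + p.1.2 = p.2.1 + p.2.2)).card : ℝ) ≤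
        XX q (bs k q m W n) u + 2 * (Fintype.card (Ix k q n) : ℝ) ^ 2 := by
      exact_mod_cast h2
    have h4 : (Fintype.card (Ix k q n) : ℝ) ^ 2 ≤ m := by exact_mod_cast hIm
    linarith
  · have h2 := hcoll univ
    have h3 : (Fintype.card (Ix k q n) : ℝ) ≤ B.card + YY q (bs k q m W n) u := by
      rw [card_univ] at h2
      exact_mod_cast h2
    linarith
  · intro y P _
    set θ : ℝ := ∑ r ∈ (range q).filter P, μ q r with hθ
    have hθ0 : 0 ≤ θ := Finset.sum_nonneg (fun r _ => h0 q r)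
    have hθ1 : θ ≤ 1 := by
      rw [← h1]
      exact Finset.sum_le_sum_of_subset_of_nonneg (filter_subset _ _) (fun r _ _ => h0 q r)
    have e2 : B.filter (fun b => b < y) = B.filter (fun b => b < y ∧ (fun _ => True) ((m + b) % q)) := by
      refine filter_congr (fun b _ => ?_)
      simp
    rw [e2, himg y P, himg y (fun _ => True)]
    set a : ℕ := min k (y / W) with ha
    have hak : (a : ℝ) ≤ k := by exact_mod_cast min_le_left k (y / W)
    have ha0 : (0 : ℝ) ≤ a := Nat.cast_nonneg _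
    have l1 : (a : ℝ) * (JP q n P).card ≤ (CI k q m W n u y P).card := by
      exact_mod_cast CI_lower k q m W n hq hqN u y P
    have l2 : (a : ℝ) * (JP q n (fun _ => True)).card ≤ (CI k q m W n u y (fun _ => True)).card := by
      exact_mod_cast CI_lower k q m W n hq hqN u y (fun _ => True)
    have u1 : ((CI k q m W n u y P).card : ℝ) ≤ (a + 1) * (JP q n P).card := by
      exact_mod_cast CI_upper k q m W n hW0 u y P
    have u2 : ((CI k q m W n u y (fun _ => True)).card : ℝ) ≤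
        (a + 1) * (JP q n (fun _ => True)).card := by
      exact_mod_cast CI_upper k q m W n hW0 u y (fun _ => True)
    have j1 := hJ1 P
    have j2 := hJ2 P
    have j3 := hJ1 (fun _ => True)
    have j4 := hJ2 (fun _ => True)
    rw [hT, h1, mul_one] at j3 j4
    rw [← hθ] at j1 j2
    have i1 : (((CI k q m W n u y P).image (el q (bs k q m W n) u)).card : ℝ) ≤
        (CI k q m W n u y P).card := by exact_mod_cast card_image_le
    have i2 : (((CI k q m W n u y (fun _ => True)).image (el q (bs k q m W n) u)).card : ℝ) ≤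
        (CI k q m W n u y (fun _ => True)).card := by exact_mod_cast card_image_le
    have i3 : ((CI k q m W n u y P).card : ℝ) ≤
        ((CI k q m W n u y P).image (el q (bs k q m W n) u)).card + YY q (bs k q m W n) u := by
      exact_mod_cast hcoll _
    have i4 : ((CI k q m W n u y (fun _ => True)).card : ℝ) ≤
        ((CI k q m W n u y (fun _ => True)).image (el q (bs k q m W n) u)).card +
          YY q (bs k q m W n) u := by
      exact_mod_cast hcoll _
    set zP : ℝ := (((CI k q m W n u y P).image (el q (bs k q m W n) u)).card : ℝ) with hzP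
    set z : ℝ := (((CI k q m W n u y (fun _ => True)).image (el q (bs k q m W n) u)).card : ℝ)
      with hz
    set cP : ℝ := ((CI k q m W n u y P).card : ℝ) with hcP
    set c : ℝ := ((CI k q m W n u y (fun _ => True)).card : ℝ) with hc
    set Y : ℝ := (YY q (bs k q m W n) u : ℝ) with hYdef
    have hY0 : 0 ≤ Y := Nat.cast_nonneg _
    -- upper and lower bounds
    have v1 : cP ≤ (a + 1) * (lam * θ) := u1.trans (by gcongr)
    have v2 : a * (lam - q) ≤ c := le_trans (by gcongr) l2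
    have v3 : a * (lam * θ - q) ≤ cP := le_trans (by gcongr) l1
    have v4 : c ≤ (a + 1) * lam := u2.trans (by gcongr)
    have w1 : θ * (a * (lam - q)) ≤ θ * c := mul_le_mul_of_nonneg_left v2 hθ0
    have w2 : θ * c ≤ θ * ((a + 1) * lam) := mul_le_mul_of_nonneg_left v4 hθ0
    have w3 : θ * z ≤ θ * c := mul_le_mul_of_nonneg_left i2 hθ0
    have w4 : θ * c ≤ θ * (z + Y) := mul_le_mul_of_nonneg_left i4 hθ0
    have w5 : θ * Y ≤ Y := by nlinarith
    have w6 : θ * lam ≤ lam := by nlinarith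
    have w7 : (a : ℝ) * q ≤ k * q := by gcongr
    have w8 : θ * (a * q) ≤ k * q := by
      have : θ * (a * q) ≤ 1 * (a * q) := mul_le_mul_of_nonneg_right hθ1 (by positivity)
      linarith
    rw [abs_le]
    constructor
    · linarith
    · linarith

end Pool.Agent.Helper38.RC
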