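import Pool.Agent.Helper38.RC.Scale
import Pool.Agent.Helper5.RC.En

/-!
The one scale construction for a compatible family of distributions.
-/

set_option autoImplicit false

open Finset Filter

namespace Pool.Agent.Helper38.RC

open Pool.Agent.Helper5.RC (sol)

theorem sol_eq {m : ℕ} {B : Finset ℕ} (hB : ∀ b ∈ B, 2 * b < m) :
    sol m B = ((B ×ˢ B) ×ˢ (B ×ˢ B)).filter (fun p => p.1.1 + p.1.2 = p.2.1 + p.2.2) := by
  unfold Pool.Agent.Helper5.RC.sol
  refine filter_congr (fun p hp => ?_)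
  rw [mem_product, mem_product, mem_product] at hp
  have h1 := hB _ hp.1.1
  have h2 := hB _ hp.1.2
  have h3 := hB _ hp.2.1
  have h4 := hB _ hp.2.2
  rw [Nat.mod_eq_of_lt (by omega), Nat.mod_eq_of_lt (by omega)]

/-- All scales: for every `s` and every large `j` a set below `2^j` with few coincidences of sums
whose translate by `2^j` follows `μ` modulo every `q₀ ≤ s`, up to any point. -/
theorem scales (μ : ℕ → ℕ → ℝ) (h0 : ∀ q r, 0 ≤ μ q r)
    (h1 : ∀ q, 0 < q → ∑ r ∈ range q, μ q r = 1)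
    (hc : ∀ q k, 0 < q → 0 < k → ∀ r < q,
      μ q r = ∑ s ∈ (range (q * k)).filter (fun s => s % q = r), μ (q * k) s)
    {C0 : ℝ} (hE : ∀ q : ℕ, 0 < q → (q : ℝ) * muE μ q ≤ C0) (s : ℕ) :
    ∀ᶠ j : ℕ in atTop, ∃ B : Finset ℕ, B ⊆ range (2 ^ j) ∧ (∀ b ∈ B, 2 * b < 2 ^ j) ∧
      ((sol (2 ^ j) B).card : ℝ) ≤ (24 * C0 + 2) * 2 ^ j ∧
      √((2 : ℝ) ^ j) ≤ 4 * B.card ∧
      ∀ y q₀ : ℕ, 1 ≤ q₀ → q₀ ≤ s → ∀ r₀ < q₀,
        |((B.filter (fun b => b < y ∧ (2 ^ j + b) % q₀ = r₀)).card : ℝ) -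
          μ q₀ r₀ * (B.filter (fun b => b < y)).card| ≤ √((2 : ℝ) ^ j) / s := by
  classical
  set t : ℕ := max s 1 with ht
  have ht1 : 1 ≤ t := le_max_right _ _
  have htR : (1 : ℝ) ≤ t := by exact_mod_cast ht1
  set q : ℕ := t.factorial with hq
  have hq0 : 0 < q := Nat.factorial_pos _
  have hqR : (1 : ℝ) ≤ q := by exact_mod_cast hq0
  set k : ℕ := 2 * t with hk
  have hk0 : 0 < k := by omega
  have hkR : (1 : ℝ) ≤ k := by exact_mod_cast hk0
  have htend : Tendsto (fun j : ℕ => √((2 : ℝ) ^ j)) atTop atTop :=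
    Real.tendsto_sqrt_atTop.comp (tendsto_pow_atTop_atTop_of_one_lt (by norm_num))
  filter_upwards [htend.eventually_ge_atTop (18 * k * q * t)] with j hj
  have hbase : (4 : ℝ) * k * q ≤ 2 ^ j := by
    have h2 : (1 : ℝ) ≤ √((2 : ℝ) ^ j) := by
      refine le_trans ?_ hj
      have : (1 : ℝ) ≤ k * q * t := by
        have := mul_le_mul (mul_le_mul hkR hqR zero_le_one (by linarith)) htR zero_le_one
          (by positivity)
        linarith
      nlinarith
    have h3 : √((2 : ℝ) ^ j) ≤ (2 : ℝ) ^ j := by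
      calc √((2 : ℝ) ^ j) = √((2 : ℝ) ^ j) * 1 := by ring
        _ ≤ √((2 : ℝ) ^ j) * √((2 : ℝ) ^ j) := by gcongr
        _ = (2 : ℝ) ^ j := Real.mul_self_sqrt (by positivity)
    have h4 : (4 : ℝ) * k * q ≤ 18 * k * q * t := by
      have h5 : (0 : ℝ) < k * q := by positivity
      nlinarith
    linarith
  have hm : 4 * k * q ≤ 2 ^ j := by exact_mod_cast hbase
  obtain ⟨B, hB1, hB2, hB3, hB4⟩ := one_scale μ h0 (C0 := C0) (m := 2 ^ j) (h1 q hq0) (hE q hq0)
    hk0 hq0 hm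
  push_cast at hB2 hB3 hB4
  refine ⟨B, ?_, hB1, ?_, ?_, ?_⟩
  · intro b hb
    have := hB1 b hb
    exact mem_range.2 (by omega)
  · rw [sol_eq hB1]
    exact hB2
  · have h2 : (12 : ℝ) * k * q ≤ √((2 : ℝ) ^ j) := by
      refine le_trans ?_ hj
      have h5 : (0 : ℝ) < k * q := by positivity
      nlinarith
    linarith
  · intro y q₀ hq1 hqs r₀ hr₀
    have hst : s = t := by
      rw [ht]
      exact (max_eq_left (by omega)).symm
    have hdvd : q₀ ∣ q := Nat.dvd_factorial hq1 (by omega)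
    have h2 := hB4 y (fun r => r % q₀ = r₀)
    have h3 : ∑ r ∈ (range q).filter (fun r => r % q₀ = r₀), μ q r = μ q₀ r₀ := by
      obtain ⟨c, hc'⟩ := hdvd
      have hc0 : 0 < c := Nat.pos_of_ne_zero (fun h => by rw [h, mul_zero] at hc'; omega)
      rw [hc', hc q₀ c hq1 hc0 r₀ hr₀]
    rw [h3] at h2
    have h4 : B.filter (fun b => b < y ∧ (2 ^ j + b) % q₀ = r₀) =
        B.filter (fun b => b < y ∧ ((2 ^ j + b) % q) % q₀ = r₀) := by
      refine filter_congr (fun b _ => ?_)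
      rw [Nat.mod_mod_of_dvd _ hdvd]
    rw [h4]
    refine h2.trans ?_
    rw [hst]
    have h5 : √((2 : ℝ) ^ j) / k = √((2 : ℝ) ^ j) / t / 2 := by
      rw [hk]
      push_cast
      field_simp
    have h6 : 9 * (k : ℝ) * q ≤ √((2 : ℝ) ^ j) / t / 2 := by
      rw [div_div, le_div_iff₀ (by positivity)]
      calc 9 * (k : ℝ) * q * (t * 2) = 18 * k * q * t := by ring
        _ ≤ _ := hj
    rw [h5]
    linarith

end Pool.Agent.Helper38.RC
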