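import Mathlib

namespace Pool.Agent.Helper38.RC

open Finset

/-- number of ordered pairs of elements of the finite set with sum n -/
def rf (A : Finset ℕ) (n : ℕ) : ℕ := ((A ×ˢ A).filter (fun p => p.1 + p.2 = n)).card

section gen

variable {α β : Type} [DecidableEq α] [DecidableEq β]

theorem sum_fiber_sq [Fintype β] (s : Finset α) (f : α → β) :
    ∑ b : β, ((s.filter (fun a => f a = b)).card) ^ 2 =
      ((s ×ˢ s).filter (fun p => f p.1 = f p.2)).card := by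
  classical
  rw [Finset.card_eq_sum_card_fiberwise (f := fun p : α × α => f p.1)
    (t := (Finset.univ : Finset β)) (by intro x _; simp)]
  refine Finset.sum_congr rfl (fun b _ => ?_)
  rw [sq, ← Finset.card_product]
  congr 1
  ext p
  simp only [Finset.mem_product, Finset.mem_filter]
  constructor
  · rintro ⟨⟨h1, h2⟩, h3, h4⟩
    exact ⟨⟨⟨h1, h3⟩, by rw [h2, h4]⟩, h2⟩
  · rintro ⟨⟨⟨h1, h3⟩, h5⟩, h2⟩
    exact ⟨⟨h1, h2⟩, h3, by rw [← h5, h2]⟩

theorem card_sq_le (s : Finset α) (f : α → β) (N : ℕ) (hN : (s.image f).card ≤ N) :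
    s.card ^ 2 ≤ N * ((s ×ˢ s).filter (fun p => f p.1 = f p.2)).card := by
  classical
  have h1 : s.card = ∑ b ∈ s.image f, (s.filter (fun a => f a = b)).card :=
    Finset.card_eq_sum_card_image f s
  have h2 : (∑ b ∈ s.image f, (s.filter (fun a => f a = b)).card) ^ 2 ≤
      (s.image f).card * ∑ b ∈ s.image f, ((s.filter (fun a => f a = b)).card) ^ 2 :=
    sq_sum_le_card_mul_sum_sq
  have h3 : ((s ×ˢ s).filter (fun p => f p.1 = f p.2)).card =
      ∑ b ∈ s.image f, ((s.filter (fun a => f a = b)).card) ^ 2 := by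
    rw [Finset.card_eq_sum_card_fiberwise (f := fun p : α × α => f p.1)
      (t := s.image f) (by
        intro x hx
        have := (Finset.mem_filter.1 (Finset.mem_coe.1 hx)).1
        exact Finset.mem_coe.2 (Finset.mem_image_of_mem f (Finset.mem_product.1 this).1))]
    refine Finset.sum_congr rfl (fun b _ => ?_)
    rw [sq, ← Finset.card_product]
    congr 1
    ext p
    simp only [Finset.mem_product, Finset.mem_filter]
    constructor
    · rintro ⟨⟨⟨h1, h3⟩, h5⟩, h2⟩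
      exact ⟨⟨h1, h2⟩, h3, by rw [← h5, h2]⟩
    · rintro ⟨⟨h1, h2⟩, h3, h4⟩
      exact ⟨⟨⟨h1, h3⟩, by rw [h2, h4]⟩, h2⟩
  rw [h3]
  calc s.card ^ 2 = (∑ b ∈ s.image f, (s.filter (fun a => f a = b)).card) ^ 2 := by rw [← h1]
    _ ≤ _ := h2
    _ ≤ _ := Nat.mul_le_mul_right _ hN

end gen

variable {ι : Type} [Fintype ι] [DecidableEq ι] (q : ι → ℕ) [hq0 : ∀ i, NeZero (q i)]

/-- the product of the residue rings -/
abbrev G : Type := ∀ i, ZMod (q i)

theorem card_class (hc : Pairwise (Function.onFun Nat.Coprime q)) (N : ℕ) (u : G q) :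
    ((Finset.range N).filter (fun n : ℕ => ((n : ℕ) : G q) = u)).card ≤ N / (∏ i, q i) + 1 := by
  classical
  by_cases hne : ((Finset.range N).filter (fun n : ℕ => ((n : ℕ) : G q) = u)).Nonempty
  · obtain ⟨n0, h0⟩ := hne
    have h0' := (Finset.mem_filter.1 h0).2
    have hsub : ((Finset.range N).filter (fun n : ℕ => ((n : ℕ) : G q) = u)) ⊆
        (Finset.range N).filter (fun n : ℕ => n ≡ n0 [MOD (∏ i, q i)]) := by
      intro n hn
      have hn' := Finset.mem_filter.1 hn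
      refine Finset.mem_filter.2 ⟨hn'.1, ?_⟩
      have key : ((∏ i, q i : ℕ) : ℤ) ∣ (n0 : ℤ) - (n : ℤ) := by
        rw [Nat.cast_prod]
        refine Finset.prod_dvd_of_coprime ?_ ?_
        · intro i _ j _ hij
          exact Nat.isCoprime_iff_coprime.2 (hc hij)
        · intro i _
          have e1 : ((n : ℕ) : ZMod (q i)) = ((n0 : ℕ) : ZMod (q i)) := by
            have := congrFun (hn'.2.trans h0'.symm) i
            simpa using this
          have e2 := (ZMod.natCast_eq_natCast_iff n n0 (q i)).1 e1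
          exact (Nat.modEq_iff_dvd).1 e2
      exact (Nat.modEq_iff_dvd).2 key
    refine (Finset.card_le_card hsub).trans ?_
    rw [← Nat.count_eq_card_filter_range]
    have hpos : 0 < ∏ i, q i := Finset.prod_pos (fun i _ => Nat.pos_of_ne_zero (NeZero.ne (q i)))
    rw [Nat.count_modEq_card _ hpos]
    split_ifs <;> omega
  · rw [Finset.not_nonempty_iff_eq_empty.1 hne]
    simp

theorem sum_R (hc : Pairwise (Function.onFun Nat.Coprime q)) (A : Finset ℕ) (x : ℕ)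
    (hA : ∀ a ∈ A, a < x) :
    ∑ u : G q, (((A ×ˢ A).filter (fun p => ((p.1 : ℕ) : G q) + ((p.2 : ℕ) : G q) = u)).card) ^ 2 ≤
      (2 * x / (∏ i, q i) + 1) * ∑ n ∈ Finset.range (2 * x), (rf A n) ^ 2 := by
  classical
  have h1 : ∀ u : G q,
      ((A ×ˢ A).filter (fun p => ((p.1 : ℕ) : G q) + ((p.2 : ℕ) : G q) = u)).card =
        ∑ n ∈ (Finset.range (2 * x)).filter (fun n : ℕ => ((n : ℕ) : G q) = u), rf A n := by
    intro u
    rw [Finset.card_eq_sum_card_fiberwise (f := fun p : ℕ × ℕ => p.1 + p.2)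
      (t := (Finset.range (2 * x)).filter (fun n : ℕ => ((n : ℕ) : G q) = u))]
    · refine Finset.sum_congr rfl (fun n hn => ?_)
      unfold rf
      congr 1
      ext p
      simp only [Finset.mem_filter]
      constructor
      · rintro ⟨⟨h1, _⟩, h2⟩
        exact ⟨h1, h2⟩
      · rintro ⟨h1, h2⟩
        refine ⟨⟨h1, ?_⟩, h2⟩
        rw [← Nat.cast_add, h2]
        exact (Finset.mem_filter.1 hn).2
    · intro p hp
      have hp' := Finset.mem_filter.1 (Finset.mem_coe.1 hp)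
      have hpp := Finset.mem_product.1 hp'.1
      have a1 := hA _ hpp.1
      have a2 := hA _ hpp.2
      refine Finset.mem_coe.2 (Finset.mem_filter.2 ⟨Finset.mem_range.2 ?_, ?_⟩)
      · show p.1 + p.2 < 2 * x
        omega
      · show ((p.1 + p.2 : ℕ) : G q) = u
        rw [Nat.cast_add]
        exact hp'.2
  have h2 : ∀ u : G q,
      (((A ×ˢ A).filter (fun p => ((p.1 : ℕ) : G q) + ((p.2 : ℕ) : G q) = u)).card) ^ 2 ≤
      (2 * x / (∏ i, q i) + 1) *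
        ∑ n ∈ (Finset.range (2 * x)).filter (fun n : ℕ => ((n : ℕ) : G q) = u), (rf A n) ^ 2 := by
    intro u
    rw [h1 u]
    refine sq_sum_le_card_mul_sum_sq.trans ?_
    exact Nat.mul_le_mul_right _ (card_class q hc (2 * x) u)
  refine (Finset.sum_le_sum (fun u _ => h2 u)).trans ?_
  rw [← Finset.mul_sum]
  refine Nat.mul_le_mul_left _ (le_of_eq ?_)
  exact (Finset.sum_fiberwise (Finset.range (2 * x)) (fun n : ℕ => ((n : ℕ) : G q))
    (fun n => (rf A n) ^ 2))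

theorem sum_rho (A : Finset ℕ) :
    ∑ t : G q, (((A ×ˢ A).filter (fun p => ((p.1 : ℕ) : G q) - ((p.2 : ℕ) : G q) = t)).card) ^ 2 =
    ∑ u : G q, (((A ×ˢ A).filter (fun p => ((p.1 : ℕ) : G q) + ((p.2 : ℕ) : G q) = u)).card) ^ 2 := by
  classical
  rw [sum_fiber_sq (A ×ˢ A) (fun p : ℕ × ℕ => ((p.1 : ℕ) : G q) - ((p.2 : ℕ) : G q)),
    sum_fiber_sq (A ×ˢ A) (fun p : ℕ × ℕ => ((p.1 : ℕ) : G q) + ((p.2 : ℕ) : G q))]
  refine Finset.card_nbij' (fun z => ((z.1.1, z.2.2), (z.2.1, z.1.2)))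
    (fun z => ((z.1.1, z.2.2), (z.2.1, z.1.2))) ?_ ?_ ?_ ?_
  · rintro ⟨⟨a, b⟩, ⟨c, d⟩⟩ h
    have h' := Finset.mem_filter.1 (Finset.mem_coe.1 h)
    simp only [Finset.mem_product] at h'
    refine Finset.mem_coe.2 (Finset.mem_filter.2 ⟨?_, ?_⟩)
    · simp only [Finset.mem_product]
      exact ⟨⟨h'.1.1.1, h'.1.2.2⟩, h'.1.2.1, h'.1.1.2⟩
    · have e := h'.2
      show ((a : ℕ) : G q) + ((d : ℕ) : G q) = ((c : ℕ) : G q) + ((b : ℕ) : G q)
      rw [← sub_eq_sub_iff_add_eq_add]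
      exact e
  · rintro ⟨⟨a, b⟩, ⟨c, d⟩⟩ h
    have h' := Finset.mem_filter.1 (Finset.mem_coe.1 h)
    simp only [Finset.mem_product] at h'
    refine Finset.mem_coe.2 (Finset.mem_filter.2 ⟨?_, ?_⟩)
    · simp only [Finset.mem_product]
      exact ⟨⟨h'.1.1.1, h'.1.2.2⟩, h'.1.2.1, h'.1.1.2⟩
    · have e := h'.2
      show ((a : ℕ) : G q) - ((d : ℕ) : G q) = ((c : ℕ) : G q) - ((b : ℕ) : G q)
      rw [sub_eq_sub_iff_add_eq_add]
      exact e
  · rintro ⟨⟨a, b⟩, ⟨c, d⟩⟩ _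
    rfl
  · rintro ⟨⟨a, b⟩, ⟨c, d⟩⟩ _
    rfl


/-- pairs that agree modulo all q i, i in D -/
theorem pairs_lower (A : Finset ℕ) (ν : ι → ℕ)
    (hν : ∀ i, (A.image (fun a : ℕ => ((a : ℕ) : ZMod (q i)))).card ≤ ν i) (D : Finset ι) :
    A.card ^ 2 ≤ (∏ i ∈ D, ν i) *
      ((A ×ˢ A).filter (fun p => ∀ i ∈ D, ((p.1 : ℕ) : ZMod (q i)) = ((p.2 : ℕ) : ZMod (q i)))).card := by
  classical
  have h := card_sq_le A (fun a : ℕ => (fun i : ι => if i ∈ D then ((a : ℕ) : ZMod (q i)) else 0 :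
    ∀ i, ZMod (q i))) (∏ i ∈ D, ν i) ?_
  · refine h.trans (Nat.mul_le_mul_left _ (Finset.card_le_card ?_))
    intro p hp
    have hp' := Finset.mem_filter.1 hp
    refine Finset.mem_filter.2 ⟨hp'.1, fun i hi => ?_⟩
    have := congrFun hp'.2 i
    simpa [hi] using this
  · calc _ ≤ (Fintype.piFinset (fun i : ι => if i ∈ D then
          A.image (fun a : ℕ => ((a : ℕ) : ZMod (q i))) else {0})).card := by
          refine Finset.card_le_card ?_
          intro z hz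
          obtain ⟨a, ha, rfl⟩ := Finset.mem_image.1 hz
          rw [Fintype.mem_piFinset]
          intro i
          by_cases hi : i ∈ D
          · simp only [hi, if_true]
            exact Finset.mem_image_of_mem _ ha
          · simp [hi]
      _ = ∏ i, (if i ∈ D then (A.image (fun a : ℕ => ((a : ℕ) : ZMod (q i)))).card else 1) := by
          rw [Fintype.card_piFinset]
          refine Finset.prod_congr rfl (fun i _ => ?_)
          by_cases hi : i ∈ D <;> simp [hi]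
      _ = ∏ i ∈ D, (A.image (fun a : ℕ => ((a : ℕ) : ZMod (q i)))).card := by
          rw [Finset.prod_ite_mem]
          simp
      _ ≤ ∏ i ∈ D, ν i := Finset.prod_le_prod' (fun i _ => hν i)

/-- the local weight -/
noncomputable def hw (w : ι → ℝ) (i : ι) (u : ZMod (q i)) : ℝ :=
  (1 - w i) + w i * (q i : ℝ) * (if u = 0 then 1 else 0)

theorem sum_phi_sq (w : ι → ℝ) :
    ∑ t : G q, (∏ i, hw q w i (t i)) ^ 2 =
      (∏ i, (q i : ℝ)) * ∏ i, (1 + (w i) ^ 2 * ((q i : ℝ) - 1)) := by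
  classical
  have h1 : ∀ t : G q, (∏ i, hw q w i (t i)) ^ 2 = ∏ i, (hw q w i (t i)) ^ 2 := by
    intro t
    rw [Finset.prod_pow]
  rw [Finset.sum_congr rfl (fun t _ => h1 t)]
  have h2 := Finset.prod_univ_sum (fun i : ι => (Finset.univ : Finset (ZMod (q i))))
    (fun (i : ι) (u : ZMod (q i)) => (hw q w i u) ^ 2)
  rw [Fintype.piFinset_univ] at h2
  rw [← h2, ← Finset.prod_mul_distrib]
  refine Finset.prod_congr rfl (fun i _ => ?_)
  have hcard : (Finset.univ : Finset (ZMod (q i))).card = q i := by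
    rw [Finset.card_univ, ZMod.card]
  have h3 : ∀ u : ZMod (q i), (hw q w i u) ^ 2 = (1 - w i) ^ 2 +
      (2 * (1 - w i) * (w i * (q i : ℝ)) + (w i * (q i : ℝ)) ^ 2) * (if u = 0 then 1 else 0) := by
    intro u
    unfold hw
    split_ifs <;> ring
  rw [Finset.sum_congr rfl (fun u _ => h3 u), Finset.sum_add_distrib, ← Finset.mul_sum]
  simp only [Finset.sum_const, hcard, nsmul_eq_mul, Finset.sum_ite_eq', Finset.mem_univ, if_true]
  ring

theorem sum_rho_phi (w : ι → ℝ) (A : Finset ℕ) :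
    ∑ t : G q, (((A ×ˢ A).filter
      (fun p => ((p.1 : ℕ) : G q) - ((p.2 : ℕ) : G q) = t)).card : ℝ) * ∏ i, hw q w i (t i) =
    ∑ p ∈ A ×ˢ A, ∏ i, hw q w i ((((p.1 : ℕ) : G q) - ((p.2 : ℕ) : G q)) i) := by
  classical
  have h1 : ∀ t : G q, (((A ×ˢ A).filter
      (fun p => ((p.1 : ℕ) : G q) - ((p.2 : ℕ) : G q) = t)).card : ℝ) * ∏ i, hw q w i (t i) =
      ∑ p ∈ (A ×ˢ A).filter (fun p => ((p.1 : ℕ) : G q) - ((p.2 : ℕ) : G q) = t),
        ∏ i, hw q w i ((((p.1 : ℕ) : G q) - ((p.2 : ℕ) : G q)) i) := by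
    intro t
    rw [Finset.sum_congr rfl (g := fun _ => ∏ i, hw q w i (t i))]
    · rw [Finset.sum_const, nsmul_eq_mul]
    · intro p hp
      rw [(Finset.mem_filter.1 hp).2]
  rw [Finset.sum_congr rfl (fun t _ => h1 t)]
  exact Finset.sum_fiberwise (A ×ˢ A) (fun p : ℕ × ℕ => ((p.1 : ℕ) : G q) - ((p.2 : ℕ) : G q)) _

theorem phi_lower (w : ι → ℝ) (hw0 : ∀ i, 0 ≤ w i) (hw1 : ∀ i, w i ≤ 1) (A : Finset ℕ)
    (ν : ι → ℕ) (hν0 : ∀ i, 0 < ν i)
    (hν : ∀ i, (A.image (fun a : ℕ => ((a : ℕ) : ZMod (q i)))).card ≤ ν i) :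
    (A.card : ℝ) ^ 2 * ∏ i, ((1 - w i) + w i * (q i : ℝ) / (ν i : ℝ)) ≤
      ∑ p ∈ A ×ˢ A, ∏ i, hw q w i ((((p.1 : ℕ) : G q) - ((p.2 : ℕ) : G q)) i) := by
  classical
  have hexp : ∀ p : ℕ × ℕ, ∏ i, hw q w i ((((p.1 : ℕ) : G q) - ((p.2 : ℕ) : G q)) i) =
      ∑ D : Finset ι, (∏ i ∈ D, (w i * (q i : ℝ))) * (∏ i ∈ Finset.univ \ D, (1 - w i)) *
        (if ∀ i ∈ D, ((p.1 : ℕ) : ZMod (q i)) = ((p.2 : ℕ) : ZMod (q i)) then 1 else 0) := by
    intro p
    have e1 : ∀ i, hw q w i ((((p.1 : ℕ) : G q) - ((p.2 : ℕ) : G q)) i) =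
        w i * (q i : ℝ) * (if ((p.1 : ℕ) : ZMod (q i)) = ((p.2 : ℕ) : ZMod (q i)) then 1 else 0) +
          (1 - w i) := by
      intro i
      unfold hw
      have : ((((p.1 : ℕ) : G q) - ((p.2 : ℕ) : G q)) i) =
          ((p.1 : ℕ) : ZMod (q i)) - ((p.2 : ℕ) : ZMod (q i)) := by simp
      rw [this]
      simp only [sub_eq_zero]
      ring
    rw [Finset.prod_congr rfl (fun i _ => e1 i), Finset.prod_add, Finset.powerset_univ]
    refine Finset.sum_congr rfl (fun D _ => ?_)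
    rw [Finset.prod_mul_distrib]
    have e2 : (∏ i ∈ D, (if ((p.1 : ℕ) : ZMod (q i)) = ((p.2 : ℕ) : ZMod (q i)) then (1:ℝ) else 0)) =
        (if ∀ i ∈ D, ((p.1 : ℕ) : ZMod (q i)) = ((p.2 : ℕ) : ZMod (q i)) then 1 else 0) := by
      rw [Finset.prod_ite_zero]
      simp
    rw [e2]
    ring
  rw [Finset.sum_congr rfl (fun p _ => hexp p), Finset.sum_comm]
  have hprod : ∏ i, ((1 - w i) + w i * (q i : ℝ) / (ν i : ℝ)) =
      ∑ D : Finset ι, (∏ i ∈ D, (w i * (q i : ℝ) / (ν i : ℝ))) * (∏ i ∈ Finset.univ \ D, (1 - w i)) := by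
    rw [Finset.prod_congr rfl (fun i _ => add_comm (1 - w i) (w i * (q i : ℝ) / (ν i : ℝ))),
      Finset.prod_add, Finset.powerset_univ]
  rw [hprod, Finset.mul_sum]
  refine Finset.sum_le_sum (fun D _ => ?_)
  rw [← Finset.mul_sum]
  have e3 : ∑ p ∈ A ×ˢ A,
      (if ∀ i ∈ D, ((p.1 : ℕ) : ZMod (q i)) = ((p.2 : ℕ) : ZMod (q i)) then (1:ℝ) else 0) =
      (((A ×ˢ A).filter
        (fun p => ∀ i ∈ D, ((p.1 : ℕ) : ZMod (q i)) = ((p.2 : ℕ) : ZMod (q i)))).card : ℝ) := by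
    rw [Finset.sum_boole]
  rw [e3]
  have h4 := pairs_lower q A ν hν D
  have h4' : (A.card : ℝ) ^ 2 ≤ (∏ i ∈ D, (ν i : ℝ)) * (((A ×ˢ A).filter
        (fun p => ∀ i ∈ D, ((p.1 : ℕ) : ZMod (q i)) = ((p.2 : ℕ) : ZMod (q i)))).card : ℝ) := by
    exact_mod_cast h4
  have hνpos : 0 < ∏ i ∈ D, (ν i : ℝ) := Finset.prod_pos (fun i _ => by exact_mod_cast hν0 i)
  have h5 : (A.card : ℝ) ^ 2 / (∏ i ∈ D, (ν i : ℝ)) ≤ (((A ×ˢ A).filter
        (fun p => ∀ i ∈ D, ((p.1 : ℕ) : ZMod (q i)) = ((p.2 : ℕ) : ZMod (q i)))).card : ℝ) := by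
    rw [div_le_iff₀ hνpos]
    linarith [h4']
  have h6 : 0 ≤ (∏ i ∈ D, (w i * (q i : ℝ))) * (∏ i ∈ Finset.univ \ D, (1 - w i)) := by
    refine mul_nonneg (Finset.prod_nonneg fun i _ => ?_) (Finset.prod_nonneg fun i _ => ?_)
    · exact mul_nonneg (hw0 i) (by positivity)
    · linarith [hw1 i]
  have h7 := mul_le_mul_of_nonneg_left h5 h6
  refine le_trans (le_of_eq ?_) h7
  rw [Finset.prod_div_distrib]
  ring

/-- LARGE SIEVE FOR THE ADDITIVE ENERGY (pairwise coprime moduli). -/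
theorem energy_sieve (hc : Pairwise (Function.onFun Nat.Coprime q)) (hq2 : ∀ i, 2 ≤ q i)
    (A : Finset ℕ) (x : ℕ) (hA : ∀ a ∈ A, a < x) (hx : (∏ i, q i) ≤ x)
    (ν : ι → ℕ) (hν0 : ∀ i, 0 < ν i) (hνq : ∀ i, ν i ≤ q i)
    (hν : ∀ i, (A.image (fun a : ℕ => ((a : ℕ) : ZMod (q i)))).card ≤ ν i) :
    (A.card : ℝ) ^ 4 * ∏ i, (1 + ((q i : ℝ) / (ν i : ℝ) - 1) ^ 2 / ((q i : ℝ) - 1)) ≤
      3 * (x : ℝ) * ∑ n ∈ Finset.range (2 * x), ((rf A n : ℕ) : ℝ) ^ 2 := by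
  classical
  set g : ι → ℝ := fun i => (q i : ℝ) / (ν i : ℝ) - 1 with hg
  set w : ι → ℝ := fun i => g i / ((q i : ℝ) - 1) with hwd
  have hq1 : ∀ i, (1 : ℝ) ≤ (q i : ℝ) - 1 := by
    intro i
    have : (2 : ℝ) ≤ (q i : ℝ) := by exact_mod_cast hq2 i
    linarith
  have hνR : ∀ i, (1 : ℝ) ≤ (ν i : ℝ) := fun i => by exact_mod_cast hν0 i
  have hg0 : ∀ i, 0 ≤ g i := by
    intro i
    have h1 : (ν i : ℝ) ≤ (q i : ℝ) := by exact_mod_cast hνq i
    have h2 : (1 : ℝ) ≤ (q i : ℝ) / (ν i : ℝ) := by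
      rw [le_div_iff₀ (by linarith [hνR i])]
      linarith
    simp only [hg]
    linarith
  have hg1 : ∀ i, g i ≤ (q i : ℝ) - 1 := by
    intro i
    have h2 : (q i : ℝ) / (ν i : ℝ) ≤ (q i : ℝ) :=
      div_le_self (by positivity) (hνR i)
    simp only [hg]
    linarith
  have hw0 : ∀ i, 0 ≤ w i := fun i => div_nonneg (hg0 i) (by linarith [hq1 i])
  have hw1 : ∀ i, w i ≤ 1 := fun i => (div_le_one (by linarith [hq1 i])).2 (hg1 i)
  set P : ι → ℝ := fun i => 1 + (g i) ^ 2 / ((q i : ℝ) - 1) with hP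
  have hP1 : ∀ i, 1 ≤ P i := by
    intro i
    have : 0 ≤ (g i) ^ 2 / ((q i : ℝ) - 1) := div_nonneg (sq_nonneg _) (by linarith [hq1 i])
    simp only [hP]
    linarith
  have hPP : 0 < ∏ i, P i := Finset.prod_pos (fun i _ => by linarith [hP1 i])
  have e1 : ∏ i, ((1 - w i) + w i * (q i : ℝ) / (ν i : ℝ)) = ∏ i, P i := by
    refine Finset.prod_congr rfl (fun i _ => ?_)
    have h1 : (1 - w i) + w i * (q i : ℝ) / (ν i : ℝ) = 1 + w i * g i := by
      simp only [hg]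
      ring
    rw [h1]
    simp only [hwd, hP]
    ring
  have e2 : ∏ i, (1 + (w i) ^ 2 * ((q i : ℝ) - 1)) = ∏ i, P i := by
    refine Finset.prod_congr rfl (fun i _ => ?_)
    have h0 : (q i : ℝ) - 1 ≠ 0 := by linarith [hq1 i]
    simp only [hwd, hP]
    field_simp
  set M : ℝ := ∏ i, (q i : ℝ) with hM
  have hMpos : 0 < M := Finset.prod_pos (fun i _ => by linarith [hq1 i])
  have hMx : M ≤ (x : ℝ) := by
    rw [hM]
    exact_mod_cast hx
  set E : ℝ := ∑ n ∈ Finset.range (2 * x), ((rf A n : ℕ) : ℝ) ^ 2 with hE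
  have hE0 : 0 ≤ E := Finset.sum_nonneg (fun n _ => sq_nonneg _)
  have s1 : (A.card : ℝ) ^ 2 * ∏ i, P i ≤ ∑ t : G q, (((A ×ˢ A).filter
      (fun p => ((p.1 : ℕ) : G q) - ((p.2 : ℕ) : G q) = t)).card : ℝ) * ∏ i, hw q w i (t i) := by
    rw [sum_rho_phi, ← e1]
    exact phi_lower q w hw0 hw1 A ν hν0 hν
  have s2 : (∑ t : G q, (((A ×ˢ A).filter
      (fun p => ((p.1 : ℕ) : G q) - ((p.2 : ℕ) : G q) = t)).card : ℝ) * ∏ i, hw q w i (t i)) ^ 2 ≤
      (∑ t : G q, (((A ×ˢ A).filter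
      (fun p => ((p.1 : ℕ) : G q) - ((p.2 : ℕ) : G q) = t)).card : ℝ) ^ 2) *
      ∑ t : G q, (∏ i, hw q w i (t i)) ^ 2 := Finset.sum_mul_sq_le_sq_mul_sq _ _ _
  have s3 : (∑ t : G q, (((A ×ˢ A).filter
      (fun p => ((p.1 : ℕ) : G q) - ((p.2 : ℕ) : G q) = t)).card : ℝ) ^ 2) ≤
      (3 * (x : ℝ) / M) * E := by
    have a1 := sum_R q hc A x hA
    rw [← sum_rho] at a1
    have a2 : (∑ t : G q, (((A ×ˢ A).filter
      (fun p => ((p.1 : ℕ) : G q) - ((p.2 : ℕ) : G q) = t)).card : ℝ) ^ 2) ≤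
      ((2 * x / (∏ i, q i) + 1 : ℕ) : ℝ) * E := by
      rw [hE]
      exact_mod_cast a1
    refine a2.trans (mul_le_mul_of_nonneg_right ?_ hE0)
    have a3 : ((2 * x / (∏ i, q i) : ℕ) : ℝ) ≤ ((2 * x : ℕ) : ℝ) / ((∏ i, q i : ℕ) : ℝ) :=
      Nat.cast_div_le
    have a4 : ((∏ i, q i : ℕ) : ℝ) = M := by
      rw [hM]
      push_cast
      rfl
    rw [a4] at a3
    have a5 : (1 : ℝ) ≤ (x : ℝ) / M := by
      rw [le_div_iff₀ hMpos]
      linarith
    push_cast at a3 ⊢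
    have a6 : 3 * (x : ℝ) / M = 2 * (x : ℝ) / M + (x : ℝ) / M := by ring
    rw [a6]
    linarith
  have s4 := sum_phi_sq q w
  rw [e2] at s4
  have t1 : 0 ≤ (A.card : ℝ) ^ 2 * ∏ i, P i := by positivity
  have t2 : ((A.card : ℝ) ^ 2 * ∏ i, P i) ^ 2 ≤ (3 * (x : ℝ) / M) * E * (M * ∏ i, P i) := by
    calc ((A.card : ℝ) ^ 2 * ∏ i, P i) ^ 2 ≤ _ := pow_le_pow_left₀ t1 s1 2
      _ ≤ _ := s2
      _ ≤ _ := by
        rw [s4]
        exact mul_le_mul_of_nonneg_right s3 (by positivity)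
  have t3 : (3 * (x : ℝ) / M) * E * (M * ∏ i, P i) = (3 * (x : ℝ) * E) * ∏ i, P i := by
    field_simp
  rw [t3] at t2
  have t4 : ((A.card : ℝ) ^ 4 * ∏ i, P i) * ∏ i, P i ≤ (3 * (x : ℝ) * E) * ∏ i, P i := by
    calc ((A.card : ℝ) ^ 4 * ∏ i, P i) * ∏ i, P i = ((A.card : ℝ) ^ 2 * ∏ i, P i) ^ 2 := by ring
      _ ≤ _ := t2
  exact le_of_mul_le_mul_right t4 hPP

end Pool.Agent.Helper38.RC
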